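import Pool.Agent.Helper912.SA.ApprChain3

set_option autoImplicit false

namespace Pool.Agent.Helper912.SA

open Set Filter Topology

section main

variable {X : Type} [NormedAddCommGroup X] [NormedSpace ℝ X] {p N : Seminorm ℝ X}
  {μ : Ordinal.{0}} {Q : Ordinal.{0} → X →L[ℝ] X}

theorem gg_cont (hQ : Chain p N μ Q) (hp : EqN p) (hN : EqN N) {τ : ℝ} (hτ : 0 < τ) (x : X) :
    ∀ l : Ordinal.{0}, Order.IsSuccLimit l → l ≤ μ → ∀ ε > (0 : ℝ), ∃ α < l, ∀ β, α ≤ β → β < l →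
      |gg p N Q τ x β - gg p N Q τ x l| < ε := by
  intro l hl hlμ ε hε
  obtain ⟨c1, hc1, C1, h1⟩ := id hp
  obtain ⟨c2, hc2, C2, h2⟩ := id hN
  set K : ℝ := |C1| + τ * |C2| + 1 with hK
  have hK0 : 0 < K := by positivity
  obtain ⟨α, hα, hα2⟩ := hQ.cont l hl hlμ x (ε / K) (by positivity)
  refine ⟨α, hα, fun β hαβ hβ => ?_⟩
  have h3 := hα2 β hαβ hβ
  rw [lt_div_iff₀ hK0] at h3
  have h4 : |p (Q β x) - p (Q l x)| ≤ |C1| * ‖Q β x - Q l x‖ := by
    refine (abs_sub_map_le_sub p _ _).trans ((h1 _).2.trans ?_)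
    exact mul_le_mul_of_nonneg_right (le_abs_self C1) (norm_nonneg _)
  have h5 : |N (x - Q β x) - N (x - Q l x)| ≤ |C2| * ‖Q β x - Q l x‖ := by
    refine (abs_sub_map_le_sub N _ _).trans ?_
    have : x - Q β x - (x - Q l x) = -(Q β x - Q l x) := by abel
    rw [this, map_neg_eq_map]
    refine ((h2 _).2.trans ?_)
    exact mul_le_mul_of_nonneg_right (le_abs_self C2) (norm_nonneg _)
  have h6 : gg p N Q τ x β - gg p N Q τ x l = (p (Q β x) - p (Q l x)) +
      τ * (N (x - Q β x) - N (x - Q l x)) := by unfold gg; ring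
  rw [h6]
  have h7 := abs_add_le (p (Q β x) - p (Q l x)) (τ * (N (x - Q β x) - N (x - Q l x)))
  rw [abs_mul, abs_of_pos hτ] at h7
  have h8 : 0 ≤ ‖Q β x - Q l x‖ := norm_nonneg _
  have h9 := mul_le_mul_of_nonneg_left h5 hτ.le
  by_cases h0 : ‖Q β x - Q l x‖ = 0
  · rw [h0, mul_zero] at h4 h5
    rw [h0, mul_zero, mul_zero] at h9
    linarith
  · have h10 : 0 < ‖Q β x - Q l x‖ := lt_of_le_of_ne h8 (Ne.symm h0)
    nlinarith

/-- local finiteness -/
theorem loc_fin [CompleteSpace X] (hQ : Chain p N μ Q) (hp : EqN p) (hN : EqN N) (hS : SmN N)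
    {s : Set.Iio μ → ℕ → Seminorm ℝ X}
    (hs1 : ∀ α n x, p (Q α.1 x) ≤ s α n x) {τ : ℝ} (hτ : 0 < τ) (x : X)
    (hx : ∀ i, FF hQ.lim N Q s τ i x < 1 + 3 * un i.2.2) :
    ∃ T : Set (Bool × Set.Iio μ × ℕ), T.Finite ∧ ∃ ρ > (0 : ℝ), ∀ i ∉ T,
      RR hQ.lim p N Q τ i x ≤ 1 + 2 * un i.2.2 - ρ := by
  have hg := main_lt hQ hp hN hS hs1 hτ x hx
  have hpx : p x ≤ 1 := by
    have := hg μ le_rfl
    unfold gg at this
    rw [hQ.top, sub_self, map_zero, mul_zero, add_zero] at this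
    exact this.le
  obtain ⟨c, hc, hgc⟩ := hQ.bound (gg p N Q τ x) (gg_cont hQ hp hN hτ x) hg
  have hJ := hQ.finite_jumps hN x (θ := c / (8 * τ)) (by positivity)
  set J : Set (Set.Iio μ) := {α | c / (8 * τ) ≤ N (Q (Order.succ α.1) x - Q α.1 x)} with hJd
  have hJf : J.Finite := by
    have : J = Subtype.val ⁻¹' {α | α < μ ∧ c / (8 * τ) ≤ N (Q (Order.succ α) x - Q α x)} := by
      ext α
      simp only [hJd, Set.mem_setOf_eq, Set.mem_preimage]
      exact ⟨fun h => ⟨α.2, h⟩, fun h => h.2⟩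
    rw [this]
    exact hJ.preimage Subtype.val_injective.injOn
  have key : ∀ q : Bool × Set.Iio μ, ∃ n₀ : ℕ, ∃ e : ℝ, q.2 ∈ J →
      0 < e ∧ ∀ n ≥ n₀, RR hQ.lim p N Q τ (q.1, q.2, n) x ≤ 1 - e := by
    rintro ⟨b, α⟩
    by_cases hα : α ∈ J
    · have hD : 0 < N (Q (Order.succ α.1) x - Q α.1 x) :=
        lt_of_lt_of_le (by positivity) hα
      obtain ⟨n₀, e, he, h⟩ := eventually_small hQ hs1 hτ x hpx hx b α hD
      exact ⟨n₀, e, fun _ => ⟨he, h⟩⟩
    · exact ⟨0, 0, fun h => absurd h hα⟩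
  choose n₀ e he using key
  have hSf : ((Set.univ : Set Bool) ×ˢ J).Finite := Set.finite_univ.prod hJf
  obtain ⟨ρ, hρ, hρe⟩ := exists_common hSf e (fun q hq => (he q hq.2).1)
  refine ⟨⋃ q ∈ ((Set.univ : Set Bool) ×ˢ J), (fun n : ℕ => (q.1, q.2, n)) '' (Set.Iio (n₀ q)),
    hSf.biUnion fun q _ => (Set.finite_Iio _).image _, min ρ (c / 2),
    lt_min hρ (by positivity), ?_⟩
  rintro ⟨b, α, n⟩ hi
  simp only
  have hun := un_pos n
  by_cases hα : α ∈ J
  · have hn : n₀ (b, α) ≤ n := by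
      by_contra hlt
      push Not at hlt
      apply hi
      simp only [Set.mem_iUnion]
      exact ⟨(b, α), ⟨Set.mem_univ _, hα⟩, n, hlt, rfl⟩
    have h1 := (he (b, α) hα).2 n hn
    have h2 := hρe (b, α) ⟨Set.mem_univ _, hα⟩
    have h3 := min_le_left ρ (c / 2)
    simp only at h1
    linarith
  · have hj : N (Q (Order.succ α.1) x - Q α.1 x) < c / (8 * τ) := not_le.1 hα
    have h1 := hgc (AA hQ.lim b α).1 (AA hQ.lim b α).2.le
    have h2 := tn_le hτ n
    have h3 : tn τ n * N (Q (Order.succ α.1) x - Q α.1 x) ≤ 2 * τ * (c / (8 * τ)) :=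
      mul_le_mul h2 hj.le (apply_nonneg _ _) (by positivity)
    have h4 : 2 * τ * (c / (8 * τ)) = c / 4 := by field_simp; ring
    have h5 : un n * p (Q (AA hQ.lim b α).1 x) ≤ un n * 1 :=
      mul_le_mul_of_nonneg_left ((hQ.le₁ _ x).trans hpx) hun.le
    have h6 := min_le_right ρ (c / 2)
    unfold RR
    unfold gg at h1
    simp only
    nlinarith

theorem Chain.appr [CompleteSpace X] (hQ : Chain p N μ Q) (hp : EqN p) (hN : EqN N) (hS : SmN N)
    (hs : ∀ α < μ, ∀ δ > (0 : ℝ), ∃ s : Seminorm ℝ X,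
      (∀ x, p (Q α x) ≤ s x ∧ s x ≤ (1 + δ) * p (Q α x)) ∧
      ∀ x, Q α x ≠ 0 → ContDiffAt ℝ ((⊤ : ℕ∞) : WithTop ℕ∞) (fun x => s x) x) :
    ∀ δ > (0 : ℝ), ∃ q : Seminorm ℝ X, SmN q ∧ ∀ x, p x ≤ q x ∧ q x ≤ (1 + δ) * p x := by
  intro δ hδ
  obtain ⟨c1, hc1, C1, h1⟩ := id hp
  obtain ⟨c2, hc2, C2, h2⟩ := id hN
  set C : ℝ := max 1 (|C2| / c1) with hC
  have hC1 : 1 ≤ C := le_max_left _ _
  have hNC : ∀ x, N x ≤ C * p x := by
    intro x
    have e1 : N x ≤ |C2| * ‖x‖ :=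
      (h2 x).2.trans (mul_le_mul_of_nonneg_right (le_abs_self C2) (norm_nonneg _))
    have e2 : |C2| * ‖x‖ = |C2| / c1 * (c1 * ‖x‖) := by field_simp
    have e3 : |C2| / c1 * (c1 * ‖x‖) ≤ |C2| / c1 * p x :=
      mul_le_mul_of_nonneg_left (h1 x).1 (by positivity)
    have e4 : |C2| / c1 * p x ≤ C * p x :=
      mul_le_mul_of_nonneg_right (le_max_right _ _) (apply_nonneg _ _)
    linarith
  set δ' : ℝ := min δ 1 with hδ'
  have hδ0 : 0 < δ' := lt_min hδ one_pos
  have hδ1 : δ' ≤ 1 := min_le_right _ _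
  set τ : ℝ := δ' / (12 * C) with hτd
  have hC0 : 0 < C := by linarith
  have hτ : 0 < τ := by positivity
  have hτC : 6 * τ * C = δ' / 2 := by rw [hτd]; field_simp; ring
  have hr0 : 0 < 1 - δ' / 2 := by linarith
  choose s hs1 hs2 using fun (α : Set.Iio μ) (n : ℕ) => hs α.1 α.2 (un n) (un_pos n)
  have hsl : ∀ α n x, p (Q α.1 x) ≤ s α n x := fun α n x => (hs1 α n x).1
  have hsu : ∀ α n x, s α n x ≤ (1 + un n) * p (Q α.1 x) := fun α n x => (hs1 α n x).2
  have hsc : ∀ α n, Continuous fun x => s α n x := by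
    intro α n
    apply seminorm_continuous_of_le hp (K := 2)
    intro x
    have e1 := hsu α n x
    have e2 := hQ.le₁ α.1 x
    have e3 := un_le_one n
    have e4 := un_pos n
    have e5 : 0 ≤ p (Q α.1 x) := apply_nonneg _ _
    nlinarith
  have hFc : ∀ i, Continuous (FF hQ.lim N Q s τ i) := fun i => Fm_continuous hN (hsc _ _)
  have hFR : ∀ i x, FF hQ.lim N Q s τ i x ≤ RR hQ.lim p N Q τ i x := fun i x =>
    FF_le hQ.lim hsu hτ i x
  set f : Bool × Set.Iio μ × ℕ → X → ℝ := fun i =>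
    fm (2 / hh (un i.2.2)) (1 + 2 * un i.2.2) (FF hQ.lim N Q s τ i) with hf
  have hK : ∀ n, 0 ≤ 2 / hh (un n) := fun n => (div_pos two_pos (hh_pos (un_pos n))).le
  have hB : ∀ x, (∀ t : Finset (Bool × Set.Iio μ × ℕ), ∑ i ∈ t, f i x ≤ 1) →
      ∀ i, FF hQ.lim N Q s τ i x < 1 + 3 * un i.2.2 := by
    intro x hx i
    have e1 := hx {i}
    rw [Finset.sum_singleton] at e1
    have e2 := fm_lt (un_pos i.2.2) e1
    linarith
  have hp1 : ∀ x, (∀ t : Finset (Bool × Set.Iio μ × ℕ), ∑ i ∈ t, f i x ≤ 1) → p x < 1 := by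
    intro x hx
    have := main_lt hQ hp hN hS hsl hτ x (hB x hx) μ le_rfl
    unfold gg at this
    rwa [hQ.top, sub_self, map_zero, mul_zero, add_zero] at this
  obtain ⟨q, hq1, hq2⟩ := gauge_lemma f
    (fun i => fm_convex (hK _) (Fm_convex (un_pos _) hτ.le (tn_pos hτ _).le))
    (fun i x => by
      simp only [hf, fm]
      unfold FF
      rw [Fm_even])
    (fun i => fm_continuous (hFc i)) (fun i x => fm_nonneg (hK _) _ _) p hp (1 - δ' / 2) hr0
    (by
      intro x hx i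
      apply fm_zero
      refine (hFR i x).trans ((RR_le hQ hτ hNC i x).trans ?_)
      rw [hτC]
      have e1 := un_pos i.2.2
      have e2 : (1 + un i.2.2 + δ' / 2) * p x ≤ (1 + un i.2.2 + δ' / 2) * (1 - δ' / 2) :=
        mul_le_mul_of_nonneg_left hx (by positivity)
      nlinarith)
    (fun x hx => (hp1 x hx).le)
    (by
      intro x hx
      obtain ⟨T, hT, ρ, hρ, hTρ⟩ := loc_fin hQ hp hN hS hsl hτ x (hB x hx)
      have hpx := hp1 x hx
      refine ⟨{x' | 3 * p (x' - x) < ρ}, ?_, hT.toFinset, ?_, ?_⟩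
      · have hc : Continuous fun x' => 3 * p (x' - x) :=
          continuous_const.mul (hp.continuous.comp (continuous_id.sub continuous_const))
        apply (isOpen_lt hc continuous_const).mem_nhds
        simpa using hρ
      · intro i hi y hy
        rw [Set.Finite.mem_toFinset] at hi
        apply fm_zero
        refine (hFR i y).trans ?_
        have e1 := RR_add (p := p) (N := N) (Q := Q) hQ.lim hτ i x (y - x)
        rw [add_sub_cancel] at e1
        have e2 := hTρ i hi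
        have e3 := RR_le hQ hτ hNC i (y - x)
        rw [hτC] at e3
        have e4 := un_le_one i.2.2
        have e5 : 0 ≤ p (y - x) := apply_nonneg _ _
        have e6 : (1 + un i.2.2 + δ' / 2) * p (y - x) ≤ 3 * p (y - x) :=
          mul_le_mul_of_nonneg_right (by linarith) e5
        have hy' : 3 * p (y - x) < ρ := hy
        linarith
      · intro i _
        apply fm_contDiffAt (hFc i)
        intro ha
        apply Fm_contDiffAt hN hS (un_pos _)
        apply hs2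
        intro h0
        have e1 := hFR i x
        unfold RR at e1
        have e2 : N (x - Q (AA hQ.lim i.1 i.2.1).1 x) = N x := by rw [h0, sub_zero]
        have e3 : N (Q (Order.succ i.2.1.1) x - Q i.2.1.1 x) ≤ 2 * N x := by
          have := map_sub_le_add N (Q (Order.succ i.2.1.1) x) (Q i.2.1.1 x)
          have := hQ.le₂ (Order.succ i.2.1.1) x
          have := hQ.le₂ i.2.1.1 x
          linarith
        rw [e2, h0, map_zero, mul_zero, zero_add] at e1
        have e4 := tn_le hτ i.2.2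
        have e5 := tn_pos hτ i.2.2
        have e6 := hNC x
        have e7 : 0 ≤ N x := apply_nonneg _ _
        have e8 : tn τ i.2.2 * N (Q (Order.succ i.2.1.1) x - Q i.2.1.1 x) ≤ 2 * τ * (2 * N x) :=
          mul_le_mul e4 e3 (apply_nonneg _ _) (by positivity)
        have e9 : 6 * τ * N x ≤ 6 * τ * (C * p x) := mul_le_mul_of_nonneg_left e6 (by positivity)
        have e10 : 6 * τ * (C * p x) = δ' / 2 * p x := by rw [← hτC]; ring
        have e11 := un_pos i.2.2
        have e12 : 0 ≤ p x := apply_nonneg _ _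
        nlinarith)
  refine ⟨q, hq1, fun x => ⟨(hq2 x).1, (hq2 x).2.trans ?_⟩⟩
  have e1 : (1 - δ' / 2)⁻¹ ≤ 1 + δ := by
    rw [inv_le_comm₀ hr0 (by positivity)]
    rw [inv_le_iff_one_le_mul₀ (by positivity)]
    have : δ' ≤ δ := min_le_left _ _
    nlinarith
  exact mul_le_mul_of_nonneg_right e1 (apply_nonneg _ _)

end main

end Pool.Agent.Helper912.SA
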