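import Pool.Agent.Helper912.SA.Defs

set_option autoImplicit false

namespace Pool.Agent.Helper912.SA

open Set Filter Topology Cardinal



theorem exists_norming {X : Type*} [NormedAddCommGroup X] [NormedSpace ℝ X]
    (p : Seminorm ℝ X) (hp : EqN p) (a : X) :
    ∃ y : X →L[ℝ] ℝ, (∀ x, |y x| ≤ p x) ∧ y a = p a := by
  by_cases ha : a = 0
  · refine ⟨0, fun x => ?_, ?_⟩
    · simp
    · rw [ha]; simp
  · obtain ⟨c, hc, C, hC⟩ := hp
    obtain ⟨F0, hF0⟩ : ∃ F0 : X →ₗ.[ℝ] ℝ, F0 = LinearPMap.mkSpanSingleton a (p a) ha := ⟨_, rfl⟩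
    have hdom : ∀ t : ℝ, t • a ∈ F0.domain := by
      intro t
      rw [hF0]
      exact Submodule.mem_span_singleton.mpr ⟨t, rfl⟩
    have hval : ∀ (t : ℝ) (h : t • a ∈ F0.domain), F0 ⟨t • a, h⟩ = t * p a := by
      subst hF0
      intro t h
      exact LinearPMap.mkSpanSingleton'_apply (σ := RingHom.id ℝ) a (p a) _ t h
    have hf : ∀ x : F0.domain, F0 x ≤ p x := by
      rintro ⟨x, hx⟩
      have hx2 : x ∈ Submodule.span ℝ {a} := by
        rw [hF0] at hx
        exact hx
      obtain ⟨t, ht⟩ := Submodule.mem_span_singleton.mp hx2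
      subst ht
      rw [hval t hx]
      change t * p a ≤ p (t • a)
      rw [map_smul_eq_mul, Real.norm_eq_abs]
      exact mul_le_mul_of_nonneg_right (le_abs_self t) (apply_nonneg p a)
    obtain ⟨g, hg1, hg2⟩ := exists_extension_of_le_sublinear F0 (fun x => p x)
      (fun c hc x => by simp only [map_smul_eq_mul, Real.norm_eq_abs, abs_of_pos hc])
      (fun x y => map_add_le_add p x y) hf
    have habs : ∀ x, |g x| ≤ p x := by
      intro x
      rw [abs_le]
      refine ⟨?_, hg2 x⟩
      have := hg2 (-x)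
      rw [map_neg, map_neg_eq_map] at this
      linarith
    refine ⟨LinearMap.mkContinuous g C (fun x => ?_), habs, ?_⟩
    · rw [Real.norm_eq_abs]
      exact (habs x).trans (hC x).2
    · have h2 := hg1 ⟨(1 : ℝ) • a, hdom 1⟩
      rw [hval] at h2
      simpa using h2

end Pool.Agent.Helper912.SA
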