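import Pool.Agent.Helper912.SA.PSysDef
import Pool.Agent.Helper912.SA.Norming
import Pool.Agent.Helper358.BM2

set_option autoImplicit false

namespace Pool.Agent.Helper912.SA

open Set Filter Topology Cardinal
open Pool.Agent.Helper358.BM (WC)



section

variable {X : Type*} [NormedAddCommGroup X] [NormedSpace ℝ X]

theorem eqN_continuous (p : Seminorm ℝ X) (hp : EqN p) : Continuous (fun x => p x) := by
  obtain ⟨c, hc, C, hC⟩ := hp
  have : LipschitzWith (Real.nnabs C) (fun x => p x) := by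
    apply LipschitzWith.of_dist_le_mul
    intro x y
    rw [Real.dist_eq, dist_eq_norm]
    refine (abs_sub_map_le_sub p x y).trans (((hC (x - y)).2).trans ?_)
    have h1 : C ≤ (Real.nnabs C : ℝ) := by
      rw [Real.coe_nnabs]; exact le_abs_self C
    exact mul_le_mul_of_nonneg_right h1 (norm_nonneg _)
  exact this.continuous

theorem semi_le (p : Seminorm ℝ X) (hp : EqN p) {A : Set X} {B : Set (StrongDual ℝ X)}
    (hn : ∀ a ∈ A, ∃ g ∈ B, (∀ x, |g x| ≤ p x) ∧ g a = p a) {a y : X} (ha : a ∈ closure A)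
    (hy : ∀ f ∈ B, f y = 0) : p a ≤ p (a + y) := by
  have hc := eqN_continuous p hp
  have hcl : IsClosed {a : X | p a ≤ p (a + y)} :=
    isClosed_le hc (hc.comp (continuous_id.add continuous_const))
  refine closure_minimal ?_ hcl ha
  intro a ha
  obtain ⟨g, hgB, hg1, hg2⟩ := hn a ha
  change p a ≤ p (a + y)
  rw [← hg2]
  have h1 : g (a + y) = g a := by rw [map_add, hy g hgB, add_zero]
  rw [← h1]
  exact (le_abs_self _).trans (hg1 _)

end

open Pool.Agent.Helper358.BM in
theorem exists_psys {X : Type*} [NormedAddCommGroup X] [NormedSpace ℝ X] [CompleteSpace X]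
    {K : Set X} (hK : WC K) (hne : K.Nonempty)
    (hspan : Dense ((Submodule.span ℝ K : Submodule ℝ X) : Set X))
    (p q : Seminorm ℝ X) (hp : EqN p) (hq : EqN q) : Nonempty (PSys p q) := by
  obtain ⟨ops, hops⟩ := exists_ops (X := X) hne
  choose gp hgp1 hgp2 using exists_norming p hp
  choose gq hgq1 hgq2 using exists_norming q hq
  let ops' : OI ⊕ Bool → List (UU X) → UU X := fun i l => match i with
    | Sum.inl i => ops i l
    | Sum.inr true => (0, gp (l.map Prod.fst).sum)
    | Sum.inr false => (0, gq (l.map Prod.fst).sum)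
  set M : Set X → Set (UU X) := fun S => cl ops' ((fun x : X => ((x, 0) : UU X)) '' S) with hM
  have hclosed : ∀ S, Closed ops' (M S) := fun S => cl_closed ops' _
  have hgood : ∀ S, Good K (Prod.fst '' (M S)) (Prod.snd '' (M S)) := fun S =>
    hops _ (fun i l h => hclosed S (Sum.inl i) l h)
  have hmono : ∀ {S S' : Set X}, S ⊆ S' → M S ⊆ M S' := fun h => cl_mono ops' (image_mono h)
  have hcard : ∀ S, #(M S) ≤ max #S ℵ₀ := fun S =>
    (mk_cl_le ops' _).trans (max_le_max mk_image_le le_rfl)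
  have hnp : ∀ S, ∀ a ∈ Prod.fst '' (M S), ∃ g ∈ Prod.snd '' (M S),
      (∀ x, |g x| ≤ p x) ∧ g a = p a := by
    rintro S _ ⟨u, hu, rfl⟩
    refine ⟨gp u.1, ⟨_, hclosed S (Sum.inr true) [u] (by simpa using hu), ?_⟩, hgp1 _, hgp2 _⟩
    simp [ops']
  have hnq : ∀ S, ∀ a ∈ Prod.fst '' (M S), ∃ g ∈ Prod.snd '' (M S),
      (∀ x, |g x| ≤ q x) ∧ g a = q a := by
    rintro S _ ⟨u, hu, rfl⟩
    refine ⟨gq u.1, ⟨_, hclosed S (Sum.inr false) [u] (by simpa using hu), ?_⟩, hgq1 _, hgq2 _⟩
    simp [ops']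
  choose P hP using fun S => exists_proj (hgood S) hK hspan
  refine ⟨⟨P, ?_, ?_, ?_, ?_, ?_, ?_, ?_⟩⟩
  · intro S x
    have h1 := semi_le p hp (hnp S) (a := P S x) (y := x - P S x) ((hP S).mem x)
      (fun f hf => by rw [map_sub, (hP S).dual x f hf, sub_self])
    rwa [add_sub_cancel] at h1
  · intro S x
    have h1 := semi_le q hq (hnq S) (a := P S x) (y := x - P S x) ((hP S).mem x)
      (fun f hf => by rw [map_sub, (hP S).dual x f hf, sub_self])
    rwa [add_sub_cancel] at h1
  · intro S S' h x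
    exact (proj_comm (hP S) (hP S') (image_mono (hmono h)) (image_mono (hmono h)) x).1
  · intro S S' h x
    exact (proj_comm (hP S) (hP S') (image_mono (hmono h)) (image_mono (hmono h)) x).2
  · intro S x hx
    apply (hP S).fix
    apply subset_closure
    exact ⟨(x, 0), subset_cl ops' _ ⟨x, hx, rfl⟩, rfl⟩
  · intro S
    exact ⟨Prod.fst '' (M S), mk_image_le.trans (hcard S), (hP S).mem⟩
  · intro c hc hdir x
    have h1 : M (⋃₀ c) ⊆ ⋃ S ∈ c, M S := by
      apply cl_min
      · intro i l hl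
        have h2 : ∃ S ∈ c, ∀ u ∈ l, u ∈ M S := by
          induction l with
          | nil =>
            obtain ⟨S, hS⟩ := hc
            exact ⟨S, hS, fun u hu => absurd hu (List.not_mem_nil)⟩
          | cons a l ih =>
            obtain ⟨S, hS, hS'⟩ := ih (fun u hu => hl u (List.mem_cons_of_mem _ hu))
            obtain ⟨T, hT, hT'⟩ := mem_iUnion₂.mp (hl a List.mem_cons_self)
            obtain ⟨R, hR, hSR, hTR⟩ := hdir S hS T hT
            refine ⟨R, hR, fun u hu => ?_⟩
            rcases List.mem_cons.mp hu with rfl | hu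
            · exact hmono hTR hT'
            · exact hmono hSR (hS' u hu)
        obtain ⟨S, hS, hS'⟩ := h2
        exact mem_iUnion₂.mpr ⟨S, hS, hclosed S i l hS'⟩
      · rintro _ ⟨y, ⟨S, hS, hyS⟩, rfl⟩
        exact mem_iUnion₂.mpr ⟨S, hS, subset_cl ops' _ ⟨y, hyS, rfl⟩⟩
    refine closure_mono ?_ ((hP (⋃₀ c)).mem x)
    rintro _ ⟨u, hu, rfl⟩
    obtain ⟨S, hS, huS⟩ := mem_iUnion₂.mp (h1 hu)
    refine mem_iUnion₂.mpr ⟨S, hS, u.1, ?_⟩
    exact (hP S).fix _ (subset_closure ⟨u, huS, rfl⟩)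

end Pool.Agent.Helper912.SA
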