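import Pool.Agent.Helper912.SA.RgDef

set_option autoImplicit false

namespace Pool.Agent.Helper912.SA

open Set Filter Topology Cardinal



theorem rg_mem {X : Type*} [NormedAddCommGroup X] [NormedSpace ℝ X]
    (Q : X →L[ℝ] X) (x : X) : x ∈ rg Q ↔ Q x = x := by
  unfold rg
  rw [LinearMap.mem_eqLocus]
  rfl

theorem rg_complete {X : Type*} [NormedAddCommGroup X] [NormedSpace ℝ X] [CompleteSpace X]
    (Q : X →L[ℝ] X) : CompleteSpace (rg Q) := by
  have h1 : IsClosed ((rg Q : Submodule ℝ X) : Set X) := by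
    have h2 : ((rg Q : Submodule ℝ X) : Set X) = {x | Q x = x} := by
      ext x
      exact rg_mem Q x
    rw [h2]
    exact isClosed_eq Q.continuous continuous_id
  exact h1.completeSpace_coe

theorem rg_norm {X : Type*} [NormedAddCommGroup X] [NormedSpace ℝ X] (Q : X →L[ℝ] X)
    (N : Seminorm ℝ X) (hN : EqN N) (hS : SmN N) : ∃ N' : Seminorm ℝ (rg Q), EqN N' ∧ SmN N' := by
  refine ⟨N.comp (rg Q).subtype, ?_, ?_⟩
  · obtain ⟨c, hc, C, h⟩ := hN
    exact ⟨c, hc, C, fun x => h (x : X)⟩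
  · intro x hx
    have hx' : (x : X) ≠ 0 := fun h => hx (Subtype.ext h)
    have h1 := hS (x : X) hx'
    have h2 : ContDiffAt ℝ ((⊤ : ℕ∞) : WithTop ℕ∞) (fun y : rg Q => (rg Q).subtypeL y) x :=
      (rg Q).subtypeL.contDiff.contDiffAt
    exact ContDiffAt.comp x (g := fun x => N x) (f := fun y : rg Q => (rg Q).subtypeL y) h1 h2

theorem rg_dense {X : Type} [NormedAddCommGroup X] [NormedSpace ℝ X] (Q : X →L[ℝ] X)
    (hQ : ∀ x, Q (Q x) = Q x) {A : Set X} (hA : ∀ x, Q x ∈ closure A) :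
    ∃ D : Set (rg Q), Dense D ∧ #D ≤ #A := by
  let f : X → rg Q := fun x => ⟨Q x, (rg_mem Q (Q x)).2 (hQ x)⟩
  have hf : Continuous f := Q.continuous.subtype_mk _
  refine ⟨f '' A, ?_, Cardinal.mk_image_le⟩
  intro v
  have hv : Q (v : X) = v := (rg_mem Q v).1 v.2
  have h1 : f (v : X) = v := Subtype.ext hv
  have h2 : (v : X) ∈ closure A := by
    rw [← hv]
    exact hA _
  rw [← h1]
  exact image_closure_subset_closure_image hf ⟨v, h2, rfl⟩

end Pool.Agent.Helper912.SA
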