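import Pool.Agent.Helper912.SA.RgDef

set_option autoImplicit false

namespace Pool.Agent.Helper912.SA

open Set Filter Topology Cardinal



theorem rg_seminorm {X : Type*} [NormedAddCommGroup X] [NormedSpace ℝ X] (Q : X →L[ℝ] X)
    (hQ : ∀ x, Q (Q x) = Q x) (p : Seminorm ℝ X) (hp : EqN p) (h : Appr (rg Q)) {δ : ℝ} (hδ : 0 < δ) :
    ∃ s : Seminorm ℝ X, (∀ x, p (Q x) ≤ s x ∧ s x ≤ (1 + δ) * p (Q x)) ∧
      ∀ x, Q x ≠ 0 → ContDiffAt ℝ ((⊤ : ℕ∞) : WithTop ℕ∞) (fun x => s x) x := by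
  obtain ⟨c, hc, C, hcC⟩ := hp
  have hp' : EqN (p.comp (rg Q).subtype) := ⟨c, hc, C, fun z => hcC (z : X)⟩
  obtain ⟨q, hq1, hq2⟩ := h (p.comp (rg Q).subtype) hp' δ hδ
  have hmem : ∀ x, Q x ∈ rg Q := fun x => hQ x
  let Q' : X →L[ℝ] rg Q := Q.codRestrict (rg Q) hmem
  refine ⟨q.comp (Q' : X →ₗ[ℝ] rg Q), fun x => hq2 (Q' x), fun x hx => ?_⟩
  have hne : Q' x ≠ 0 := by
    intro h0
    apply hx
    have h1 : ((Q' x : rg Q) : X) = 0 := by rw [h0]; rfl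
    exact h1
  have h2 : ContDiffAt ℝ ((⊤ : ℕ∞) : WithTop ℕ∞) (fun y : X => Q' y) x :=
    Q'.contDiff.contDiffAt
  exact (hq1 (Q' x) hne).comp x h2

end Pool.Agent.Helper912.SA
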