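import Pool.Agent.Helper912.SA.RgDef
import Pool.Agent.Helper358.BM2

set_option autoImplicit false

namespace Pool.Agent.Helper912.SA

open Set Filter Topology Cardinal
open Pool.Agent.Helper358.BM (WC)



theorem rg_wc {X : Type*} [NormedAddCommGroup X] [NormedSpace ℝ X] (Q : X →L[ℝ] X)
    (hQ : ∀ x, Q (Q x) = Q x) {K : Set X} (hK : WC K) (hne : K.Nonempty)
    (hspan : Dense ((Submodule.span ℝ K : Submodule ℝ X) : Set X)) :
    ∃ K' : Set (rg Q), WC K' ∧ K'.Nonempty ∧
      Dense ((Submodule.span ℝ K' : Submodule ℝ (rg Q)) : Set (rg Q)) := by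
  have hmem : ∀ x, Q x ∈ rg Q := fun x => hQ x
  let R : X →L[ℝ] rg Q := Q.codRestrict (rg Q) hmem
  have hR : ∀ x, ((R x : rg Q) : X) = Q x := fun x => rfl
  have hsurj : Function.Surjective R := by
    intro y
    refine ⟨(y : X), Subtype.ext ?_⟩
    rw [hR]
    exact y.2
  refine ⟨R '' K, ?_, hne.image _, ?_⟩
  · unfold WC at hK ⊢
    have h1 := hK.image (WeakSpace.map R).continuous
    have h2 : (WeakSpace.map R) '' ((toWeakSpace ℝ X) '' K) =
        (toWeakSpace ℝ (rg Q)) '' (R '' K) := by
      rw [Set.image_image, Set.image_image]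
      rfl
    rw [← h2]
    exact h1
  · have h3 : ((Submodule.span ℝ (R '' K) : Submodule ℝ (rg Q)) : Set (rg Q)) =
        R '' ((Submodule.span ℝ K : Submodule ℝ X) : Set X) := by
      have h4 : Submodule.span ℝ (R '' K) = (Submodule.span ℝ K).map (R : X →ₗ[ℝ] rg Q) := by
        rw [Submodule.map_span]
        rfl
      rw [h4, Submodule.map_coe]
      rfl
    rw [h3]
    exact hsurj.denseRange.dense_image R.continuous hspan

end Pool.Agent.Helper912.SA
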