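import Pool.Agent.Helper912.SA.Sepa
import Pool.Agent.Helper912.SA.PSysEx
import Pool.Agent.Helper912.SA.ApprChain4
import Pool.Agent.Helper912.SA.RgSem
import Pool.Agent.Helper912.SA.RgMisc
import Pool.Agent.Helper912.SA.RgWC

set_option autoImplicit false

namespace Pool.Agent.Helper912.SA

open Set Filter Topology Cardinal
open Pool.Agent.Helper358.BM (WC)



/-- the initial pieces of a set along an injective enumeration by ordinals -/
theorem appr_all_enum {X : Type} (D : Set X) : ∃ S : Ordinal.{0} → Set X,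
    Monotone S ∧ (∀ α < (#D).ord, #(S α) < #D) ∧ S (#D).ord = D ∧
    ∀ l : Ordinal.{0}, Order.IsSuccLimit l → S l = ⋃₀ {s | ∃ α : Ordinal.{0}, 0 < α ∧ α < l ∧ s = S α} := by
  classical
  obtain ⟨r, wo, hr⟩ := Cardinal.exists_ord_eq D
  refine ⟨fun α => {x | ∃ hx : x ∈ D, Ordinal.typein r ⟨x, hx⟩ < α}, ?_, ?_, ?_, ?_⟩
  · intro α β hαβ x hx
    obtain ⟨hx, h⟩ := hx
    exact ⟨hx, lt_of_lt_of_le h hαβ⟩
  · intro α hα
    refine lt_of_le_of_lt ?_ (Cardinal.lt_ord.mp hα)
    have hinj : Function.Injective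
        (fun x : {x | ∃ hx : x ∈ D, Ordinal.typein r ⟨x, hx⟩ < α} =>
          (⟨Ordinal.typein r ⟨x.1, x.2.choose⟩, x.2.choose_spec⟩ : Set.Iio α)) := by
      intro x y hxy
      have h1 := congrArg Subtype.val hxy
      have h2 := Ordinal.typein_injective r h1
      have h3 := congrArg Subtype.val h2
      exact Subtype.ext h3
    have h1 := Cardinal.lift_mk_le_lift_mk_of_injective hinj
    rw [Cardinal.mk_Iio_ordinal, Cardinal.lift_lift, Cardinal.lift_umax, Cardinal.lift_le] at h1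
    exact h1
  · ext x
    constructor
    · rintro ⟨hx, _⟩
      exact hx
    · intro hx
      refine ⟨hx, ?_⟩
      rw [hr]
      exact Ordinal.typein_lt_type r _
  · intro l hl
    ext x
    constructor
    · rintro ⟨hx, h⟩
      refine ⟨_, ⟨Order.succ (Ordinal.typein r ⟨x, hx⟩), ?_, hl.succ_lt h, rfl⟩, hx, Order.lt_succ _⟩
      exact lt_of_le_of_lt (bot_le) (Order.lt_succ _)
    · rintro ⟨s, ⟨α, h0, h1, rfl⟩, hx, h2⟩
      exact ⟨hx, h2.trans h1⟩

theorem appr_all_chain {X : Type} [NormedAddCommGroup X] [NormedSpace ℝ X] {p N : Seminorm ℝ X}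
    (hN : EqN N) (Ps : PSys p N) (D : Set X) (hD : Dense D) (hκ : ℵ₀ ≤ #D)
    (S : Ordinal.{0} → Set X) (hmono : Monotone S) (htop : S (#D).ord = D)
    (hlim : ∀ l : Ordinal.{0}, Order.IsSuccLimit l →
      S l = ⋃₀ {s | ∃ α : Ordinal.{0}, 0 < α ∧ α < l ∧ s = S α})
    (Q : Ordinal.{0} → X →L[ℝ] X) (hQ0 : Q 0 = 0) (hQ : ∀ α, α ≠ 0 → Q α = Ps.P (S α)) :
    Chain p N (#D).ord Q := by
  classical
  have hup : ∀ {α β : Ordinal.{0}}, α ≤ β → ∀ x, Q β (Q α x) = Q α x := by
    intro α β hαβ x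
    by_cases h : α = 0
    · subst h
      rw [hQ0]; simp
    · have hβ : β ≠ 0 := by
        intro h2
        subst h2
        exact h (le_antisymm hαβ (bot_le))
      rw [hQ α h, hQ β hβ]
      exact Ps.up (hmono hαβ) x
  have hdown : ∀ {α β : Ordinal.{0}}, α ≤ β → ∀ x, Q α (Q β x) = Q α x := by
    intro α β hαβ x
    by_cases h : α = 0
    · subst h
      rw [hQ0]; simp
    · have hβ : β ≠ 0 := by
        intro h2
        subst h2
        exact h (le_antisymm hαβ (bot_le))
      rw [hQ α h, hQ β hβ]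
      exact Ps.down (hmono hαβ) x
  have hle2 : ∀ α x, N (Q α x) ≤ N x := by
    intro α x
    by_cases h : α = 0
    · subst h
      rw [hQ0]; simp
    · rw [hQ α h]
      exact Ps.le₂ _ x
  refine ⟨Cardinal.isSuccLimit_ord hκ, hQ0, hup, hdown, ?_, hle2, ?_, ?_⟩
  · intro α x
    by_cases h : α = 0
    · subst h
      rw [hQ0]; simp
    · rw [hQ α h]
      exact Ps.le₁ _ x
  · intro l hl _ x ε hε
    have hl0 : l ≠ 0 := by
      intro h
      subst h
      exact hl.1 (isMin_bot)
    obtain ⟨c, hc, C, hcC⟩ := hN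
    have hM : ∀ α v, ‖Q α v‖ ≤ (|C| / c) * ‖v‖ := by
      intro α v
      have h1 := (hcC (Q α v)).1
      have h2 := hle2 α v
      have h3 := (hcC v).2
      have h4 : C * ‖v‖ ≤ |C| * ‖v‖ := mul_le_mul_of_nonneg_right (le_abs_self C) (norm_nonneg v)
      rw [div_mul_eq_mul_div, le_div_iff₀ hc]
      nlinarith
    have hQl : Q l = Ps.P (⋃₀ {s | ∃ α : Ordinal.{0}, 0 < α ∧ α < l ∧ s = S α}) := by
      rw [hQ l hl0, hlim l hl]
    have hcne : ({s | ∃ α : Ordinal.{0}, 0 < α ∧ α < l ∧ s = S α} : Set (Set X)).Nonempty := by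
      refine ⟨S (Order.succ 0), Order.succ 0, Order.lt_succ _, hl.succ_lt ?_, rfl⟩
      exact lt_of_le_of_ne (bot_le) (Ne.symm hl0)
    have hdir : DirectedOn (· ⊆ ·)
        ({s | ∃ α : Ordinal.{0}, 0 < α ∧ α < l ∧ s = S α} : Set (Set X)) := by
      rintro s ⟨α, h1, h2, rfl⟩ t ⟨β, h3, h4, rfl⟩
      refine ⟨S (max α β), ⟨max α β, lt_max_of_lt_left h1, max_lt h2 h4, rfl⟩, ?_, ?_⟩
      · exact hmono (le_max_left _ _)
      · exact hmono (le_max_right _ _)
    have hcl := Ps.chain _ hcne hdir x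
    rw [← hQl] at hcl
    rw [Metric.mem_closure_iff] at hcl
    obtain ⟨b, hb, hdist⟩ := hcl (ε / (|C| / c + 2)) (by positivity)
    simp only [mem_iUnion, exists_prop, mem_ofPred_eq] at hb
    obtain ⟨s, ⟨α₀, h0, h1, rfl⟩, hb⟩ := hb
    obtain ⟨y, hy⟩ := hb
    have hα₀ : α₀ ≠ 0 := ne_of_gt h0
    refine ⟨α₀, h1, ?_⟩
    intro β hβ hβl
    have hQb : Q β b = b := by
      rw [← hy, ← hQ α₀ hα₀]
      exact hup hβ y
    have hQx : Q β (Q l x) = Q β x := hdown hβl.le x
    have heq : Q β x - Q l x = Q β (Q l x - b) - (Q l x - b) := by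
      rw [map_sub, hQb, hQx]
      abel
    rw [dist_eq_norm] at hdist
    have hpos : (0:ℝ) ≤ |C| / c := by positivity
    have hlt : (|C| / c + 2) * ‖Q l x - b‖ < ε := by
      rw [lt_div_iff₀ (by positivity)] at hdist
      linarith
    calc ‖Q β x - Q l x‖ = ‖Q β (Q l x - b) - (Q l x - b)‖ := by rw [heq]
      _ ≤ ‖Q β (Q l x - b)‖ + ‖Q l x - b‖ := norm_sub_le _ _
      _ ≤ (|C| / c) * ‖Q l x - b‖ + ‖Q l x - b‖ := by gcongr; exact hM β _
      _ ≤ (|C| / c + 2) * ‖Q l x - b‖ := by nlinarith [norm_nonneg (Q l x - b)]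
      _ < ε := hlt
  · intro x
    have hne : (#D).ord ≠ 0 := by
      intro h
      have h2 := (Cardinal.isSuccLimit_ord hκ)
      rw [h] at h2
      exact h2.1 isMin_bot
    rw [hQ _ hne, htop]
    have hcl : IsClosed {x : X | Ps.P D x = x} := isClosed_eq (Ps.P D).continuous continuous_id
    have hsub : closure D ⊆ {x : X | Ps.P D x = x} := by
      refine closure_minimal ?_ hcl
      intro y hy
      exact Ps.fix y hy
    exact hsub (hD x)

theorem appr_all (κ : Cardinal.{0}) : ∀ (X : Type) [NormedAddCommGroup X] [NormedSpace ℝ X]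
    [CompleteSpace X] (D : Set X), Dense D → #D ≤ κ →
    (∃ K : Set X, WC K ∧ K.Nonempty ∧ Dense ((Submodule.span ℝ K : Submodule ℝ X) : Set X)) →
    (∃ N : Seminorm ℝ X, EqN N ∧ SmN N) → Appr X := by
  classical
  induction κ using WellFoundedLT.induction with
  | ind κ ih =>
    intro X _ _ _ D hD hDκ hK hN
    by_cases h0 : #D ≤ ℵ₀
    · have : TopologicalSpace.SeparableSpace X :=
        ⟨⟨D, Cardinal.le_aleph0_iff_set_countable.mp h0, hD⟩⟩
      obtain ⟨N, hN, hS⟩ := hN
      exact appr_separable N hN hS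
    · have h0' : ℵ₀ < #D := not_le.mp h0
      by_cases hlt : #D < κ
      · exact ih _ hlt X D hD le_rfl hK hN
      · have hκ : κ = #D := le_antisymm (not_lt.mp hlt) hDκ
        obtain ⟨K, hKc, hne, hspan⟩ := hK
        obtain ⟨N, hN, hS⟩ := hN
        intro p hp δ hδ
        obtain ⟨Ps⟩ := exists_psys hKc hne hspan p N hp hN
        obtain ⟨S, hmono, hcard, htop, hlim⟩ := appr_all_enum D
        let Q : Ordinal.{0} → X →L[ℝ] X := fun α => if α = 0 then 0 else Ps.P (S α)
        have hQ0 : Q 0 = 0 := by simp [Q]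
        have hQ : ∀ α, α ≠ 0 → Q α = Ps.P (S α) := by
          intro α hα
          simp [Q, hα]
        have hch : Chain p N (#D).ord Q :=
          appr_all_chain hN Ps D hD h0'.le S hmono htop hlim Q hQ0 hQ
        refine Chain.appr hch hp hN hS ?_ δ hδ
        intro α hα δ' hδ'
        by_cases hα0 : α = 0
        · subst hα0
          refine ⟨0, ?_, ?_⟩
          · intro x
            rw [hQ0]
            simp
          · intro x hx
            rw [hQ0] at hx
            exact absurd rfl hx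
        · have hidem : ∀ x, Q α (Q α x) = Q α x := fun x => hch.up le_rfl x
          obtain ⟨A, hA1, hA2⟩ := Ps.rng (S α)
          have hA2' : ∀ x, Q α x ∈ closure A := by
            intro x
            rw [hQ α hα0]
            exact hA2 x
          obtain ⟨D', hD', hD'c⟩ := rg_dense (Q α) hidem hA2'
          have : CompleteSpace (rg (Q α)) := rg_complete (Q α)
          have hlt' : #D' < κ := by
            rw [hκ]
            exact lt_of_le_of_lt (hD'c.trans hA1) (max_lt (hcard α hα) h0')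
          have hAp : Appr (rg (Q α)) :=
            ih _ hlt' (rg (Q α)) D' hD' le_rfl (rg_wc (Q α) hidem hKc hne hspan)
              (rg_norm (Q α) N hN hS)
          exact rg_seminorm (Q α) hidem p hp hAp hδ'

end Pool.Agent.Helper912.SA
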