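import Pool.Agent.Helper912.SA.ChainDef

set_option autoImplicit false

namespace Pool.Agent.Helper912.SA

open Set Filter Topology Cardinal

section chain

variable {X : Type} [NormedAddCommGroup X] [NormedSpace ℝ X] {p N : Seminorm ℝ X}
  {μ : Ordinal.{0}} {Q : Ordinal.{0} → X →L[ℝ] X}


theorem Chain.bound (hQ : Chain p N μ Q) (g : Ordinal.{0} → ℝ)
    (hg : ∀ l : Ordinal.{0}, Order.IsSuccLimit l → l ≤ μ → ∀ ε > (0 : ℝ), ∃ α < l, ∀ β, α ≤ β → β < l →
      |g β - g l| < ε) (h1 : ∀ α ≤ μ, g α < 1) : ∃ c > (0 : ℝ), ∀ α ≤ μ, g α ≤ 1 - c := by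
  have key : ∀ b : Ordinal.{0}, b ≤ μ → ∃ c > (0 : ℝ), ∀ α ≤ b, g α ≤ 1 - c := by
    intro b
    induction b using Ordinal.limitRecOn with
    | zero =>
      intro hb
      refine ⟨1 - g 0, by linarith [h1 0 hb], ?_⟩
      intro α hα
      have : α = 0 := by simpa using hα
      rw [this]
      linarith
    | add_one b ih =>
      intro hb
      have hb' : b ≤ μ := (le_self_add).trans hb
      obtain ⟨c, hc, hcb⟩ := ih hb'
      refine ⟨min c (1 - g (b + 1)), lt_min hc (by linarith [h1 _ hb]), ?_⟩
      intro α hα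
      rcases (le_iff_lt_or_eq.mp hα) with h | h
      · have := min_le_left c (1 - g (b + 1))
        have := hcb α (Order.lt_add_one_iff.mp h)
        linarith
      · rw [h]
        have := min_le_right c (1 - g (b + 1))
        linarith
    | limit l hl ih =>
      intro hb
      have hε : 0 < (1 - g l) / 2 := by linarith [h1 l hb]
      obtain ⟨a0, ha0, ha⟩ := hg l hl hb _ hε
      obtain ⟨c, hc, hcb⟩ := ih a0 ha0 (ha0.le.trans hb)
      refine ⟨min c ((1 - g l) / 2), lt_min hc hε, ?_⟩
      intro α hα
      have m1 := min_le_left c ((1 - g l) / 2)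
      have m2 := min_le_right c ((1 - g l) / 2)
      rcases le_total α a0 with h | h
      · have := hcb α h
        linarith
      · rcases hα.lt_or_eq with h' | h'
        · have := abs_lt.mp (ha α h h')
          linarith [this.2]
        · rw [h']
          linarith
  exact key μ le_rfl

end chain

end Pool.Agent.Helper912.SA
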