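import Pool.Agent.Helper912.SA.Defs

set_option autoImplicit false

namespace Pool.Agent.Helper912.SA

open Set Filter Topology Cardinal



theorem gauge_lemma {X : Type*} [NormedAddCommGroup X] [NormedSpace ℝ X] [CompleteSpace X]
    {ι : Type*} (f : ι → X → ℝ) (hconv : ∀ i, ConvexOn ℝ univ (f i))
    (heven : ∀ i x, f i (-x) = f i x) (hcont : ∀ i, Continuous (f i)) (hnn : ∀ i x, 0 ≤ f i x)
    (p : Seminorm ℝ X) (hp : EqN p) (r : ℝ) (hr : 0 < r)
    (h1 : ∀ x, p x ≤ r → ∀ i, f i x = 0)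
    (h2 : ∀ x, (∀ s : Finset ι, ∑ i ∈ s, f i x ≤ 1) → p x ≤ 1)
    (h3 : ∀ x, (∀ s : Finset ι, ∑ i ∈ s, f i x ≤ 1) → ∃ U ∈ 𝓝 x, ∃ s : Finset ι,
      (∀ i ∉ s, ∀ y ∈ U, f i y = 0) ∧
      ∀ i ∈ s, ContDiffAt ℝ ((⊤ : ℕ∞) : WithTop ℕ∞) (f i) x) :
    ∃ q : Seminorm ℝ X, SmN q ∧ ∀ x, p x ≤ q x ∧ q x ≤ r⁻¹ * p x := by
  classical
  set S : Set X := {x | ∀ s : Finset ι, ∑ i ∈ s, f i x ≤ 1} with hS
  have hsumconv : ∀ s : Finset ι, ConvexOn ℝ univ (fun x => ∑ i ∈ s, f i x) := by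
    intro s
    refine ⟨convex_univ, fun x _ y _ a b ha hb hab => ?_⟩
    simp only [smul_eq_mul, Finset.mul_sum]
    rw [← Finset.sum_add_distrib]
    apply Finset.sum_le_sum
    intro i _
    have := (hconv i).2 (mem_univ x) (mem_univ y) ha hb hab
    simpa using this
  have hsumcont : ∀ s : Finset ι, Continuous (fun x => ∑ i ∈ s, f i x) :=
    fun s => continuous_finsetSum _ (fun i _ => hcont i)
  have hSconv : Convex ℝ S := by
    have h : S = ⋂ s : Finset ι, {x | ∑ i ∈ s, f i x ≤ 1} := by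
      ext x; simp [hS]
    rw [h]
    apply convex_iInter
    intro s
    have := (hsumconv s).convex_le 1
    simpa using this
  have hSclosed : IsClosed S := by
    have h : S = ⋂ s : Finset ι, {x | ∑ i ∈ s, f i x ≤ 1} := by
      ext x; simp [hS]
    rw [h]
    exact isClosed_iInter (fun s => isClosed_le (hsumcont s) continuous_const)
  obtain ⟨c, hc, C, hcC⟩ := hp
  have hzero : ∀ i, f i 0 = 0 := fun i => h1 0 (by simp [hr.le]) i
  have hSr : ∀ x, p x ≤ r → x ∈ S := by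
    intro x hx s
    rw [Finset.sum_eq_zero (fun i _ => h1 x hx i)]
    exact zero_le_one
  have hSnhds : S ∈ 𝓝 (0 : X) := by
    have hpos : 0 < r / (|C| + 1) := by positivity
    refine mem_of_superset (Metric.ball_mem_nhds (0 : X) hpos) fun x hx => hSr x ?_
    rw [mem_ball_zero_iff, lt_div_iff₀ (by positivity)] at hx
    have h2 := (hcC x).2
    have h3 : C * ‖x‖ ≤ |C| * ‖x‖ := by gcongr; exact le_abs_self C
    nlinarith [norm_nonneg x, abs_nonneg C]
  have hSabs : Absorbent ℝ S := absorbent_nhds_zero hSnhds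
  have hSsym : ∀ x ∈ S, -x ∈ S := fun x hx s => by
    simp only [heven]; exact hx s
  have hSbal : Balanced ℝ S := by
    intro t ht
    rintro _ ⟨x, hx, rfl⟩
    have ht1 : |t| ≤ 1 := by simpa using ht
    have h0S : (0 : X) ∈ S := hSr 0 (by simp [hr.le])
    have hcomb : |t| • x ∈ S := by
      have := hSconv hx h0S (abs_nonneg t) (sub_nonneg.2 ht1) (by ring)
      simpa using this
    rcases abs_choice t with h | h
    · rw [h] at hcomb; exact hcomb
    · rw [h] at hcomb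
      have h2 := hSsym _ hcomb
      rw [neg_smul, neg_neg] at h2
      exact h2
  set N : Seminorm ℝ X := gaugeSeminorm hSbal hSconv hSabs with hN
  have hNg : ∀ x, N x = gauge S x := fun x => rfl
  have hle : ∀ x, N x ≤ 1 ↔ x ∈ S := by
    intro x
    rw [hNg, gauge_le_one_iff_mem_closure hSconv hSnhds, hSclosed.closure_eq]
  have hpN : ∀ x, p x ≤ N x := by
    intro x
    apply le_of_forall_gt
    intro t ht
    have ht0 : 0 < t := lt_of_le_of_lt (apply_nonneg N x) ht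
    obtain ⟨t', ht1, ht2⟩ := exists_between ht
    have ht0' : 0 < t' := lt_of_le_of_lt (apply_nonneg N x) ht1
    have h4 : N (t'⁻¹ • x) ≤ 1 := by
      rw [map_smul_eq_mul, Real.norm_eq_abs, abs_of_pos (inv_pos.2 ht0')]
      rw [inv_mul_le_iff₀ ht0']; linarith
    have h5 := h2 _ ((hle _).1 h4)
    rw [map_smul_eq_mul, Real.norm_eq_abs, abs_of_pos (inv_pos.2 ht0'),
      inv_mul_le_iff₀ ht0'] at h5
    linarith
  have hNp : ∀ x, N x ≤ r⁻¹ * p x := by
    intro x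
    rcases eq_or_ne x 0 with rfl | hx0
    · simp
    · have hxp : 0 < ‖x‖ := norm_pos_iff.2 hx0
      have hpx : 0 < p x := lt_of_lt_of_le (mul_pos hc hxp) (hcC x).1
      have h4 : p ((r / p x) • x) ≤ r := by
        rw [map_smul_eq_mul, Real.norm_eq_abs, abs_of_pos (div_pos hr hpx)]
        rw [div_mul_cancel₀ _ hpx.ne']
      have h5 := (hle _).2 (hSr _ h4)
      rw [map_smul_eq_mul, Real.norm_eq_abs, abs_of_pos (div_pos hr hpx)] at h5
      have h6 : N x = (r / p x * N x) * (r⁻¹ * p x) := by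
        field_simp
      rw [h6]
      calc (r / p x * N x) * (r⁻¹ * p x) ≤ 1 * (r⁻¹ * p x) := by gcongr
        _ = r⁻¹ * p x := one_mul _
  refine ⟨N, ?_, fun x => ⟨hpN x, hNp x⟩⟩
  intro x0 hx0
  have hNpos : 0 < N x0 := by
    have h4 := hpN x0
    have h5 := (hcC x0).1
    have h6 : 0 < c * ‖x0‖ := mul_pos hc (norm_pos_iff.2 hx0)
    linarith
  set l0 : ℝ := (N x0)⁻¹ with hl0
  have hl0pos : 0 < l0 := inv_pos.2 hNpos
  have hNl : N (l0 • x0) = 1 := by
    rw [map_smul_eq_mul, Real.norm_eq_abs, abs_of_pos hl0pos, hl0, inv_mul_cancel₀ hNpos.ne']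
  have hx1S : l0 • x0 ∈ S := (hle _).1 hNl.le
  obtain ⟨U, hU, s, hs0, hsC⟩ := h3 (l0 • x0) hx1S
  set F : X → ℝ := fun x => ∑ i ∈ s, f i x with hF
  have hFconv : ConvexOn ℝ univ F := hsumconv s
  have hFcont : Continuous F := hsumcont s
  have hF0 : F 0 = 0 := by
    simp only [hF]
    exact Finset.sum_eq_zero (fun i _ => hzero i)
  have hFS : ∀ y ∈ S, F y ≤ 1 := fun y hy => hy s
  have hSF : ∀ y ∈ U, F y ≤ 1 → y ∈ S := by
    intro y hy hFy s'
    refine le_trans ?_ hFy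
    have h4 : ∑ i ∈ s', f i y = ∑ i ∈ s' ∩ s, f i y := by
      symm
      apply Finset.sum_subset Finset.inter_subset_left
      intro i hi hi2
      apply hs0 i _ y hy
      intro h5
      exact hi2 (Finset.mem_inter.2 ⟨hi, h5⟩)
    rw [h4]
    exact Finset.sum_le_sum_of_subset_of_nonneg Finset.inter_subset_right (fun i _ _ => hnn i y)
  have hF1 : F (l0 • x0) = 1 := by
    refine le_antisymm (hFS _ hx1S) ?_
    by_contra hlt
    push Not at hlt
    have hc1 : Continuous (fun t : ℝ => t • (l0 • x0)) := by fun_prop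
    have hc2 : Continuous (fun t : ℝ => F (t • (l0 • x0))) := hFcont.comp hc1
    have h4 : ∀ᶠ t in 𝓝 (1:ℝ), F (t • (l0 • x0)) < 1 := by
      have h5 : F ((1:ℝ) • (l0 • x0)) < 1 := by rw [one_smul]; exact hlt
      exact (hc2.continuousAt (x := (1:ℝ))).eventually (gt_mem_nhds h5)
    have h5 : ∀ᶠ t in 𝓝 (1:ℝ), t • (l0 • x0) ∈ U := by
      have h6 : U ∈ 𝓝 ((1:ℝ) • (l0 • x0)) := by rw [one_smul]; exact hU
      exact (hc1.continuousAt (x := (1:ℝ))).eventually_mem h6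
    obtain ⟨δ, hδ, hball⟩ := Metric.eventually_nhds_iff.1 (h4.and h5)
    obtain ⟨h6, h7⟩ := hball (y := 1 + δ/2) (by
      rw [Real.dist_eq, show (1 + δ/2 - 1) = δ/2 by ring, abs_of_pos (by positivity)]
      linarith)
    have h8 := (hle _).2 (hSF _ h7 h6.le)
    rw [map_smul_eq_mul, hNl, Real.norm_eq_abs, abs_of_pos (by positivity)] at h8
    linarith
  have hone : ∀ y ∈ U, F y = 1 → N y = 1 := by
    intro y hyU hy
    refine le_antisymm ((hle y).2 (hSF y hyU hy.le)) ?_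
    by_contra hlt
    push Not at hlt
    obtain ⟨t, ht1, ht2⟩ := exists_between hlt
    have ht0 : 0 < t := lt_of_le_of_lt (apply_nonneg N y) ht1
    have h4 : N (t⁻¹ • y) ≤ 1 := by
      rw [map_smul_eq_mul, Real.norm_eq_abs, abs_of_pos (inv_pos.2 ht0)]
      rw [inv_mul_le_iff₀ ht0]; linarith
    have h5 := hFS _ ((hle _).1 h4)
    have h6 := hFconv.2 (mem_univ (t⁻¹ • y)) (mem_univ (0:X)) ht0.le (sub_nonneg.2 ht2.le) (by ring)
    simp only [smul_zero, add_zero, smul_eq_mul, smul_smul, mul_inv_cancel₀ ht0.ne', one_smul] at h6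
    rw [hy, hF0] at h6
    nlinarith
  have hCF : ContDiffAt ℝ ((⊤ : ℕ∞) : WithTop ℕ∞) F (l0 • x0) := by
    rw [hF]
    exact ContDiffAt.sum (fun i hi => hsC i hi)
  set g : X × ℝ → ℝ := fun p => F (p.2 • p.1) with hg'
  set u : X × ℝ := (x0, l0) with hu
  have hfC : ContDiffAt ℝ ((⊤ : ℕ∞) : WithTop ℕ∞) g u := by
    have h4 : ContDiffAt ℝ ((⊤ : ℕ∞) : WithTop ℕ∞) (fun p : X × ℝ => p.2 • p.1) u :=
      contDiffAt_snd.smul contDiffAt_fst
    exact ContDiffAt.comp u (g := F) (f := fun p : X × ℝ => p.2 • p.1) hCF h4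
  have hn0 : ((⊤ : ℕ∞) : WithTop ℕ∞) ≠ 0 := by simp
  have hfd : HasFDerivAt g (fderiv ℝ g u) u := (hfC.differentiableAt hn0).hasFDerivAt
  set d : ℝ := fderiv ℝ g u (0, 1) with hd
  have hg : HasDerivAt (fun t : ℝ => F (t • x0)) d l0 := by
    have h4 : HasDerivAt (fun t : ℝ => ((x0, t) : X × ℝ)) ((0, 1) : X × ℝ) l0 :=
      (hasDerivAt_const l0 x0).prodMk (hasDerivAt_id l0)
    exact HasFDerivAt.comp_hasDerivAt (f := fun t : ℝ => ((x0, t) : X × ℝ)) l0 hfd h4
  have hgconv : ConvexOn ℝ univ (fun t : ℝ => F (t • x0)) := by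
    refine ⟨convex_univ, fun s _ t _ a b ha hb hab => ?_⟩
    have := hFconv.2 (mem_univ (s • x0)) (mem_univ (t • x0)) ha hb hab
    simpa [add_smul, smul_smul] using this
  have hdpos : 0 < d := by
    have h4 := hgconv.slope_le_of_hasDerivAt (mem_univ (0:ℝ)) (mem_univ l0) hl0pos hg
    rw [slope_def_field] at h4
    simp only [zero_smul, sub_zero, hF1, hF0] at h4
    have h5 : 0 < 1 / l0 := by positivity
    linarith
  have hinv : (fderiv ℝ g u ∘L .inr ℝ X ℝ).IsInvertible := by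
    refine ⟨ContinuousLinearEquiv.unitsEquivAut ℝ (Units.mk0 d hdpos.ne'), ?_⟩
    ext
    simp [hd]
  set ψ := hfC.implicitFunction hn0 hinv with hψ
  have hψC : ContDiffAt ℝ ((⊤ : ℕ∞) : WithTop ℕ∞) ψ x0 := hfC.contDiffAt_implicitFunction hn0 hinv
  have hψ0 : ψ x0 = l0 := hfC.implicitFunction_apply_self hn0 hinv
  have hev : ∀ᶠ x in 𝓝 x0, F (ψ x • x) = 1 := by
    have := hfC.eventually_apply_implicitFunction hn0 hinv
    filter_upwards [this] with x hx
    have h2 : g u = 1 := hF1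
    rw [h2] at hx
    exact hx
  have hpos : ∀ᶠ x in 𝓝 x0, 0 < ψ x := by
    apply hψC.continuousAt.eventually
    rw [hψ0]
    exact lt_mem_nhds hl0pos
  have hUev : ∀ᶠ x in 𝓝 x0, ψ x • x ∈ U := by
    have h4 : ContinuousAt (fun x => ψ x • x) x0 := hψC.continuousAt.smul continuousAt_id
    apply h4.eventually_mem
    show U ∈ 𝓝 (ψ x0 • x0)
    rw [hψ0]; exact hU
  have heq : (fun x => N x) =ᶠ[𝓝 x0] fun x => (ψ x)⁻¹ := by
    filter_upwards [hev, hpos, hUev] with x hx hx2 hx3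
    have h4 := hone _ hx3 hx
    rw [map_smul_eq_mul, Real.norm_eq_abs, abs_of_pos hx2] at h4
    exact eq_inv_of_mul_eq_one_right h4
  have hfin : ContDiffAt ℝ ((⊤ : ℕ∞) : WithTop ℕ∞) (fun x => (ψ x)⁻¹) x0 :=
    hψC.inv (by rw [hψ0]; exact hl0pos.ne')
  exact hfin.congr_of_eventuallyEq heq

end Pool.Agent.Helper912.SA
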