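import Pool.Agent.Helper912.SA.ChainDef

set_option autoImplicit false

namespace Pool.Agent.Helper912.SA

open Set Filter Topology Cardinal

section chain

variable {X : Type} [NormedAddCommGroup X] [NormedSpace ℝ X] {p N : Seminorm ℝ X}
  {μ : Ordinal.{0}} {Q : Ordinal.{0} → X →L[ℝ] X}


theorem Chain.finite_jumps (hQ : Chain p N μ Q) (hN : EqN N) (x : X) {θ : ℝ} (hθ : 0 < θ) :
    {α | α < μ ∧ θ ≤ N (Q (Order.succ α) x - Q α x)}.Finite := by
  obtain ⟨c, hc, C, hC⟩ := hN
  have key : ∀ b : Ordinal.{0}, b ≤ μ →
      {α | α < b ∧ θ ≤ N (Q (Order.succ α) x - Q α x)}.Finite := by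
    intro b
    induction b using WellFoundedLT.induction with
    | ind b ih =>
      intro hb
      rcases Ordinal.zero_or_succ_or_isSuccLimit b with h0 | ⟨d, hd⟩ | hl
      · subst h0
        refine Set.Finite.subset Set.finite_empty ?_
        rintro a ⟨ha, -⟩
        exact absurd ha (by simp)
      · subst hd
        have h1 := ih d (Order.lt_succ d) ((Order.le_succ d).trans hb)
        refine (h1.insert d).subset ?_
        rintro a ⟨ha, ha2⟩
        rcases (Order.lt_succ_iff.1 ha).lt_or_eq with h | h
        · exact Or.inr ⟨h, ha2⟩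
        · exact Or.inl h
      · have hC' : 0 < max C 1 := lt_of_lt_of_le one_pos (le_max_right _ _)
        obtain ⟨a0, ha0, h0⟩ := hQ.cont b hl hb x (θ / (2 * max C 1)) (by positivity)
        refine (ih a0 ha0 (ha0.le.trans hb)).subset ?_
        rintro a ⟨ha, ha2⟩
        refine ⟨?_, ha2⟩
        by_contra hcon
        push Not at hcon
        have h1 := h0 a hcon ha
        have h2 := h0 (Order.succ a) (hcon.trans (Order.le_succ a)) (hl.succ_lt ha)
        have h3 : ‖Q (Order.succ a) x - Q a x‖ < 2 * (θ / (2 * max C 1)) := by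
          have h4 : Q (Order.succ a) x - Q a x =
              (Q (Order.succ a) x - Q b x) - (Q a x - Q b x) := by abel
          rw [h4]
          have := norm_sub_le (Q (Order.succ a) x - Q b x) (Q a x - Q b x)
          linarith
        have h5 := (hC (Q (Order.succ a) x - Q a x)).2
        have h6 : C * ‖Q (Order.succ a) x - Q a x‖ ≤ max C 1 * ‖Q (Order.succ a) x - Q a x‖ :=
          mul_le_mul_of_nonneg_right (le_max_left _ _) (norm_nonneg _)
        have h7 : max C 1 * ‖Q (Order.succ a) x - Q a x‖ < max C 1 * (2 * (θ / (2 * max C 1))) :=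
          mul_lt_mul_of_pos_left h3 hC'
        have h8 : max C 1 * (2 * (θ / (2 * max C 1))) = θ := by
          field_simp
        linarith
  exact key μ le_rfl

end chain

end Pool.Agent.Helper912.SA
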