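import Pool.Agent.Helper912.SA.ChainDef

set_option autoImplicit false

namespace Pool.Agent.Helper912.SA

open Set Filter Topology Cardinal

section chain

variable {X : Type} [NormedAddCommGroup X] [NormedSpace ℝ X] {p N : Seminorm ℝ X}
  {μ : Ordinal.{0}} {Q : Ordinal.{0} → X →L[ℝ] X}


theorem Chain.lim_const (hQ : Chain p N μ Q) (x y : X) {α m : Ordinal.{0}} (hαm : α < m)
    (hm : m ≤ μ) (hlim : Order.IsSuccLimit m) (h : ∀ γ, α ≤ γ → γ < m → Q γ x = y) :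
    Q m x = y := by
  by_contra hne
  have hpos : 0 < ‖y - Q m x‖ := norm_pos_iff.2 (sub_ne_zero.2 (Ne.symm hne))
  obtain ⟨β, hβ, hβ2⟩ := hQ.cont m hlim hm x _ hpos
  have h1 := hβ2 (max α β) (le_max_right _ _) (max_lt hαm hβ)
  rw [h (max α β) (le_max_left _ _) (max_lt hαm hβ)] at h1
  exact lt_irrefl _ h1

theorem Chain.next_jump (hQ : Chain p N μ Q) (x : X) {α : Ordinal.{0}} (hα : α ≤ μ)
    (hx : Q α x ≠ x) : ∃ β < μ, α ≤ β ∧ Q β x = Q α x ∧ Q (Order.succ β) x ≠ Q β x := by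
  set S : Set Ordinal.{0} := {g | α ≤ g ∧ g ≤ μ ∧ Q g x ≠ Q α x} with hS
  have hne : S.Nonempty := ⟨μ, hα, le_rfl, by rw [hQ.top]; exact hx.symm⟩
  obtain ⟨h1, h2, h3⟩ := WellFounded.min_mem Ordinal.lt_wf S hne
  set m := WellFounded.min Ordinal.lt_wf S hne with hm
  have hmin : ∀ γ, α ≤ γ → γ < m → Q γ x = Q α x := by
    intro γ hγ1 hγ2
    by_contra hc
    exact WellFounded.not_lt_min Ordinal.lt_wf S (x := γ) ⟨hγ1, hγ2.le.trans h2, hc⟩ hγ2
  have hαm : α < m := by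
    apply lt_of_le_of_ne h1
    intro e
    apply h3
    rw [← e]
  rcases Ordinal.zero_or_succ_or_isSuccLimit m with h0 | ⟨b, hb⟩ | hl
  · rw [h0] at hαm
    exact absurd hαm not_lt_zero
  · have hbm : b < m := by
      rw [← hb]; exact Order.lt_succ b
    have hαb : α ≤ b := by
      rw [← hb] at hαm
      exact Order.lt_succ_iff.1 hαm
    refine ⟨b, lt_of_lt_of_le hbm h2, hαb, hmin b hαb hbm, ?_⟩
    rw [hmin b hαb hbm, hb]
    exact h3
  · exact absurd (hQ.lim_const x (Q α x) hαm h2 hl hmin) h3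

theorem Chain.last_jump (hQ : Chain p N μ Q) (x : X) (hx : x ≠ 0) :
    (∃ β < μ, Q (Order.succ β) x = x ∧ Q β x ≠ x) ∨
    ∃ l ≤ μ, Order.IsSuccLimit l ∧ Q l x = x ∧ ∀ γ < l, Q γ x ≠ x := by
  set S : Set Ordinal.{0} := {g | g ≤ μ ∧ Q g x = x} with hS
  have hne : S.Nonempty := ⟨μ, le_rfl, hQ.top x⟩
  obtain ⟨h2, h3⟩ := WellFounded.min_mem Ordinal.lt_wf S hne
  set m := WellFounded.min Ordinal.lt_wf S hne with hm
  have hmin : ∀ γ, γ < m → Q γ x ≠ x := by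
    intro γ hγ2 hc
    exact WellFounded.not_lt_min Ordinal.lt_wf S (x := γ) ⟨hγ2.le.trans h2, hc⟩ hγ2
  rcases Ordinal.zero_or_succ_or_isSuccLimit m with h0 | ⟨b, hb⟩ | hl
  · exfalso
    rw [h0, hQ.zero] at h3
    exact hx h3.symm
  · have hbm : b < m := by
      rw [← hb]; exact Order.lt_succ b
    left
    refine ⟨b, lt_of_lt_of_le hbm h2, ?_, hmin b hbm⟩
    rw [hb]
    exact h3
  · right
    exact ⟨m, h2, hl, h3, hmin⟩

end chain

end Pool.Agent.Helper912.SA
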