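import Mathlib

set_option autoImplicit false

namespace Pool.Agent.Helper912.SA

open Metric Filter Topology

/-- Ekeland principle, weak form (after helper570) -/
theorem ekeland {X : Type*} [MetricSpace X] [CompleteSpace X] (x₀ : X) (F : X → ℝ)
    (hF : Continuous F) (b : ℝ) (hb : ∀ x, b ≤ F x) (ε : ℝ) (hε : 0 < ε) :
    ∃ v, ∀ x, F v ≤ F x + ε * dist x v := by
  classical
  let S : X → Set X := fun x => {y | F y + ε * dist y x ≤ F x}
  have hS : ∀ x y, y ∈ S x ↔ F y + ε * dist y x ≤ F x := fun x y => Iff.rfl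
  have hself : ∀ x, x ∈ S x := by
    intro x; rw [hS, dist_self, mul_zero, add_zero]
  have htrans : ∀ x y z, y ∈ S x → z ∈ S y → z ∈ S x := by
    intro x y z hy hz
    rw [hS] at *
    have h1 := mul_le_mul_of_nonneg_left (dist_triangle z y x) hε.le
    rw [mul_add] at h1
    linarith
  have hcl : ∀ x, IsClosed (S x) := by
    intro x
    exact isClosed_le (hF.add (continuous_const.mul (continuous_id.dist continuous_const)))
      continuous_const
  have hstep : ∀ (x : X) (n : ℕ), ∃ y ∈ S x, ∀ z ∈ S x, F y ≤ F z + (1 / 2 : ℝ) ^ n := by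
    intro x n
    have hne : (F '' S x).Nonempty := ⟨F x, x, hself x, rfl⟩
    have hbd : BddBelow (F '' S x) := ⟨b, by rintro _ ⟨y, _, rfl⟩; exact hb y⟩
    obtain ⟨_, ⟨y, hy, rfl⟩, hy2⟩ := exists_lt_of_csInf_lt hne
      (show sInf (F '' S x) < sInf (F '' S x) + (1 / 2 : ℝ) ^ n by
        have : (0 : ℝ) < (1 / 2 : ℝ) ^ n := by positivity
        linarith)
    refine ⟨y, hy, fun z hz => ?_⟩
    have := csInf_le hbd ⟨z, hz, rfl⟩
    linarith
  choose st hst1 hst2 using hstep
  let s : ℕ → X := fun n => Nat.rec x₀ (fun n x => st x n) n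
  have hs : ∀ n, s (n + 1) = st (s n) n := fun n => rfl
  have hin : ∀ n m, n ≤ m → s m ∈ S (s n) := by
    intro n m hnm
    induction m, hnm using Nat.le_induction with
    | base => exact hself _
    | succ m _ ih => exact htrans _ _ _ ih (by rw [hs]; exact hst1 _ _)
  have hsmall : ∀ n z, z ∈ S (s (n + 1)) → dist z (s (n + 1)) ≤ (1 / 2 : ℝ) ^ n / ε := by
    intro n z hz
    have h1 : z ∈ S (s n) := htrans _ _ _ (hin n (n + 1) (Nat.le_succ n)) hz
    have h2 := hst2 (s n) n z h1
    rw [← hs] at h2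
    rw [hS] at hz
    rw [le_div_iff₀ hε]
    linarith
  have hlim0 : Tendsto (fun n : ℕ => (1 / 2 : ℝ) ^ n / ε) atTop (𝓝 0) := by
    have := (tendsto_pow_atTop_nhds_zero_of_lt_one (by norm_num : (0 : ℝ) ≤ 1 / 2)
      (by norm_num : (1 / 2 : ℝ) < 1)).div_const ε
    simpa using this
  have hc : CauchySeq s := by
    rw [Metric.cauchySeq_iff']
    intro δ hδ
    obtain ⟨n, hn⟩ := (hlim0.eventually (gt_mem_nhds hδ)).exists
    refine ⟨n + 1, fun m hm => ?_⟩
    exact lt_of_le_of_lt (hsmall n _ (hin _ _ hm)) hn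
  obtain ⟨v, hv⟩ := cauchySeq_tendsto_of_complete hc
  have hvS : ∀ n, v ∈ S (s n) := by
    intro n
    apply (hcl (s n)).mem_of_tendsto hv
    filter_upwards [eventually_ge_atTop n] with m hm
    exact hin n m hm
  refine ⟨v, fun x => ?_⟩
  by_contra hcon
  push Not at hcon
  have hxS : x ∈ S v := hcon.le
  have h1 : ∀ n, dist x (s (n + 1)) ≤ (1 / 2 : ℝ) ^ n / ε := fun n =>
    hsmall n x (htrans _ _ _ (hvS (n + 1)) hxS)
  have h2 : Tendsto (fun n => s (n + 1)) atTop (𝓝 x) := by
    rw [tendsto_iff_dist_tendsto_zero]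
    refine squeeze_zero (fun _ => dist_nonneg) (fun n => ?_) hlim0
    rw [dist_comm]
    exact h1 n
  have h3 : x = v := tendsto_nhds_unique h2 (hv.comp (tendsto_add_atTop_nat 1))
  rw [h3, dist_self, mul_zero, add_zero] at hcon
  exact lt_irrefl _ hcon

end Pool.Agent.Helper912.SA
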