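import Pool.Agent.Helper912.SA.Sq
import Pool.Agent.Helper912.SA.Ekeland

set_option autoImplicit false

namespace Pool.Agent.Helper912.SA

open Set Filter Topology Cardinal



theorem crit_aux834 {X : Type*} [NormedAddCommGroup X] [NormedSpace ℝ X] (F : X → ℝ) (v : X)
    (G : X →L[ℝ] ℝ) (hG : HasFDerivAt F G v) {η : ℝ} (hv : ∀ x, F v ≤ F x + η * dist x v) (h : X) :
    -(η * ‖h‖) ≤ G h := by
  have hline : HasDerivAt (fun t : ℝ => v + t • h) h 0 := by
    have := ((hasDerivAt_id (0 : ℝ)).smul_const h).const_add v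
    simpa using this
  have hG' : HasFDerivAt F G (v + (0 : ℝ) • h) := by simpa using hG
  have hd : HasDerivAt (fun t : ℝ => F (v + t • h)) (G h) 0 := hG'.comp_hasDerivAt 0 hline
  rw [hasDerivAt_iff_tendsto_slope_zero] at hd
  have hd' := hd.mono_left (nhdsWithin_mono (0 : ℝ) (fun t (ht : t ∈ Ioi (0 : ℝ)) => ne_of_gt ht))
  refine ge_of_tendsto hd' ?_
  filter_upwards [self_mem_nhdsWithin] with t ht
  have ht0 : (0 : ℝ) < t := ht
  have h1 := hv (v + t • h)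
  have h2 : dist (v + t • h) v = t * ‖h‖ := by
    rw [dist_eq_norm, add_sub_cancel_left, norm_smul, Real.norm_of_nonneg ht0.le]
  rw [h2] at h1
  simp only [zero_add, zero_smul, add_zero, smul_eq_mul]
  have h3 : t⁻¹ * (-(t * (η * ‖h‖))) ≤ t⁻¹ * (F (v + t • h) - F v) :=
    mul_le_mul_of_nonneg_left (by linarith) (inv_nonneg.2 ht0.le)
  have h4 : t⁻¹ * (-(t * (η * ‖h‖))) = -(η * ‖h‖) := by
    field_simp
  linarith

theorem exists_crit {X : Type*} [NormedAddCommGroup X] [NormedSpace ℝ X] [CompleteSpace X]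
    (N : Seminorm ℝ X) (hN : EqN N) (hS : SmN N) (y : X →L[ℝ] ℝ) {η : ℝ} (hη : 0 < η) :
    ∃ z : X, ‖fderiv ℝ (fun x => N x ^ 2) z - y‖ ≤ η := by
  have hC := sq_contDiff_one N hN hS
  obtain ⟨c, hc, C, hcC⟩ := hN
  obtain ⟨v, hv⟩ := ekeland (0 : X) (fun x => N x ^ 2 - y x) (hC.continuous.sub y.continuous)
    (-(‖y‖ ^ 2 / (4 * c ^ 2))) (fun x => by
      have h1 := (hcC x).1
      have h2 : y x ≤ ‖y‖ * ‖x‖ := (le_abs_self _).trans (y.le_opNorm x)
      have h3 : (c * ‖x‖) ^ 2 ≤ N x ^ 2 := pow_le_pow_left₀ (by positivity) h1 2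
      have h4 : 0 ≤ (c * ‖x‖ - ‖y‖ / (2 * c)) ^ 2 := sq_nonneg _
      have h5 : (c * ‖x‖ - ‖y‖ / (2 * c)) ^ 2 = (c * ‖x‖) ^ 2 - ‖y‖ * ‖x‖ + ‖y‖ ^ 2 / (4 * c ^ 2) := by
        field_simp
        ring
      linarith) η hη
  refine ⟨v, ?_⟩
  have hF : HasFDerivAt (fun x => N x ^ 2 - y x) (fderiv ℝ (fun x => N x ^ 2) v - y) v :=
    ((hC.differentiable one_ne_zero v).hasFDerivAt).sub y.hasFDerivAt
  refine ContinuousLinearMap.opNorm_le_bound _ hη.le fun h => ?_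
  rw [Real.norm_eq_abs, abs_le]
  constructor
  · exact crit_aux834 _ v _ hF hv h
  · have := crit_aux834 _ v _ hF hv (-h)
    rw [norm_neg, map_neg] at this
    linarith

end Pool.Agent.Helper912.SA
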