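import Pool.Agent.Helper912.SA.ChainDef
import Pool.Agent.Helper912.SA.Crit

set_option autoImplicit false

namespace Pool.Agent.Helper912.SA

open Set Filter Topology Cardinal

section chain

variable {X : Type} [NormedAddCommGroup X] [NormedSpace ℝ X] {p N : Seminorm ℝ X}
  {μ : Ordinal.{0}} {Q : Ordinal.{0} → X →L[ℝ] X}


theorem Chain.shrink [CompleteSpace X] (hQ : Chain p N μ Q) (hN : EqN N) (hS : SmN N)
    (y : X →L[ℝ] ℝ) {η : ℝ} (hη : 0 < η) {l : Ordinal.{0}} (hl : Order.IsSuccLimit l) (hlμ : l ≤ μ) :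
    ∃ γ₀ < l, ∀ γ, γ₀ ≤ γ → γ < l → ∀ x, |y (Q l x - Q γ x)| ≤ η * ‖Q l x - Q γ x‖ := by
  let V : Submodule ℝ X := LinearMap.ker ((Q l - ContinuousLinearMap.id ℝ X : X →L[ℝ] X) : X →ₗ[ℝ] X)
  have hV : ∀ x, x ∈ V ↔ Q l x = x := by
    intro x
    show (Q l - ContinuousLinearMap.id ℝ X) x = 0 ↔ _
    rw [ContinuousLinearMap.sub_apply, ContinuousLinearMap.id_apply, sub_eq_zero]
  have hVc : IsClosed (V : Set X) := by
    have : (V : Set X) = {x | Q l x = x} := by
      ext x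
      exact hV x
    rw [this]
    exact isClosed_eq (Q l).continuous continuous_id
  haveI : CompleteSpace V := hVc.completeSpace_coe
  let N' : Seminorm ℝ V := N.comp V.subtype
  have hN'v : ∀ v : V, N' v = N (v : X) := fun v => rfl
  have hEq : EqN N' := by
    obtain ⟨c, hc, C, h⟩ := hN
    exact ⟨c, hc, C, fun x => h x⟩
  have hSm : SmN N' := by
    intro x hx
    have hx' : (x : X) ≠ 0 := fun h => hx (Subtype.ext h)
    have h1 := hS (x : X) hx'
    exact ContDiffAt.comp (g := fun x : X => N x) (f := fun v : V => (v : X)) x h1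
      V.subtypeL.contDiff.contDiffAt
  obtain ⟨z, hz⟩ := exists_crit N' hEq hSm (y.comp V.subtypeL) (η := η / 4) (by positivity)
  have hF : ContDiff ℝ 1 (fun x => N x ^ 2) := sq_contDiff_one N hN hS
  have hDc : Continuous (fun x => fderiv ℝ (fun x => N x ^ 2) x) := hF.continuous_fderiv (by simp)
  have hFd : ∀ x, DifferentiableAt ℝ (fun x => N x ^ 2) x := fun x =>
    (hF.differentiable (by simp)).differentiableAt
  have hder : fderiv ℝ (fun v : V => N' v ^ 2) z =
      (fderiv ℝ (fun x => N x ^ 2) (z : X)).comp V.subtypeL := by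
    have h1 : HasFDerivAt (fun v : V => (v : X)) V.subtypeL z := V.subtypeL.hasFDerivAt
    exact ((hFd (z : X)).hasFDerivAt.comp z h1).fderiv
  obtain ⟨ρ, hρ, hρD⟩ := Metric.continuousAt_iff.mp (hDc.continuousAt (x := (z : X))) (η / 4)
    (by positivity)
  have hzl : Q l (z : X) = z := (hV z).mp z.2
  obtain ⟨γ₀, hγ₀, hγ⟩ := hQ.cont l hl hlμ (z : X) ρ hρ
  refine ⟨γ₀, hγ₀, fun γ h1 h2 x => ?_⟩
  set h := Q l x - Q γ x with hh'
  have hle : γ ≤ l := h2.le
  have hhV : h ∈ V := by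
    rw [hV, hh', map_sub, hQ.up le_rfl, hQ.up hle]
  have hhγ : Q γ h = 0 := by
    rw [hh', map_sub, hQ.down hle, hQ.down le_rfl, sub_self]
  -- the derivative at `Q γ z` kills `h`
  have hkill : fderiv ℝ (fun x => N x ^ 2) (Q γ (z : X)) h = 0 := by
    have h3 : HasDerivAt (fun t : ℝ => N (Q γ (z : X) + t • h) ^ 2)
        (fderiv ℝ (fun x => N x ^ 2) (Q γ (z : X)) h) 0 := by
      have h4 : HasDerivAt (fun t : ℝ => Q γ (z : X) + t • h) h 0 := by
        simpa using ((hasDerivAt_id (0:ℝ)).smul_const h).const_add (Q γ (z : X))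
      have h5 : HasFDerivAt (fun x => N x ^ 2) (fderiv ℝ (fun x => N x ^ 2) (Q γ (z : X)))
          (Q γ (z : X) + (0:ℝ) • h) := by
        rw [zero_smul, add_zero]
        exact (hFd _).hasFDerivAt
      exact h5.comp_hasDerivAt (0:ℝ) h4
    have hmin : IsLocalMin (fun t : ℝ => N (Q γ (z : X) + t • h) ^ 2) 0 := by
      apply Filter.Eventually.of_forall
      intro t
      show N (Q γ (z : X) + (0:ℝ) • h) ^ 2 ≤ N (Q γ (z : X) + t • h) ^ 2
      rw [zero_smul, add_zero]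
      have h6 := hQ.le₂ γ (Q γ (z : X) + t • h)
      rw [map_add, map_smul, hhγ, smul_zero, add_zero, hQ.up le_rfl] at h6
      exact pow_le_pow_left₀ (apply_nonneg N _) h6 2
    exact hmin.hasDerivAt_eq_zero h3
  have hc1 : ‖Q γ (z : X) - z‖ < ρ := by
    have := hγ γ h1 h2
    rwa [hzl] at this
  have hc2 := hρD (x := Q γ (z : X)) (by rw [dist_eq_norm]; exact hc1)
  rw [dist_eq_norm] at hc2
  have hA : |y h - fderiv ℝ (fun x => N x ^ 2) (z : X) h| ≤ η / 4 * ‖h‖ := by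
    have h7 := (fderiv ℝ (fun v : V => N' v ^ 2) z - y.comp V.subtypeL).le_opNorm ⟨h, hhV⟩
    rw [hder] at h7 hz
    have h8 : ((fderiv ℝ (fun x => N x ^ 2) (z : X)).comp V.subtypeL - y.comp V.subtypeL) ⟨h, hhV⟩ =
        fderiv ℝ (fun x => N x ^ 2) (z : X) h - y h := rfl
    rw [h8, Real.norm_eq_abs, abs_sub_comm] at h7
    refine h7.trans ?_
    have h9 : ‖(⟨h, hhV⟩ : V)‖ = ‖h‖ := rfl
    rw [h9]
    exact mul_le_mul_of_nonneg_right hz (norm_nonneg _)
  have hB : |fderiv ℝ (fun x => N x ^ 2) (z : X) h| ≤ η / 4 * ‖h‖ := by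
    have h7 := (fderiv ℝ (fun x => N x ^ 2) (Q γ (z : X)) - fderiv ℝ (fun x => N x ^ 2) (z : X)).le_opNorm h
    rw [ContinuousLinearMap.sub_apply, hkill, zero_sub, norm_neg, Real.norm_eq_abs] at h7
    exact h7.trans (mul_le_mul_of_nonneg_right hc2.le (norm_nonneg _))
  have hn := norm_nonneg h
  calc |y h| = |(y h - fderiv ℝ (fun x => N x ^ 2) (z : X) h) + fderiv ℝ (fun x => N x ^ 2) (z : X) h| := by
        ring_nf
    _ ≤ |y h - fderiv ℝ (fun x => N x ^ 2) (z : X) h| + |fderiv ℝ (fun x => N x ^ 2) (z : X) h| :=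
        abs_add_le _ _
    _ ≤ η / 4 * ‖h‖ + η / 4 * ‖h‖ := add_le_add hA hB
    _ ≤ η * ‖h‖ := by nlinarith

end chain

end Pool.Agent.Helper912.SA
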