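import Pool.Agent.Helper912.SA.Hh
import Pool.Agent.Helper912.SA.Gauge
import Pool.Agent.Helper912.SA.Norming
import Pool.Agent.Helper912.SA.Jumps
import Pool.Agent.Helper912.SA.Bound
import Pool.Agent.Helper912.SA.NextJump
import Pool.Agent.Helper912.SA.Shrink

set_option autoImplicit false

namespace Pool.Agent.Helper912.SA

open Set Filter Topology

theorem EqN.continuous {X : Type*} [NormedAddCommGroup X] [NormedSpace ℝ X] {N : Seminorm ℝ X}
    (hN : EqN N) : Continuous (fun x => N x) := by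
  obtain ⟨c, hc, C, h⟩ := hN
  have hC : ∀ x, N x ≤ |C| * ‖x‖ := fun x =>
    (h x).2.trans (mul_le_mul_of_nonneg_right (le_abs_self C) (norm_nonneg x))
  have : LipschitzWith (Real.toNNReal |C|) (fun x => N x) := by
    apply LipschitzWith.of_dist_le_mul
    intro x y
    rw [Real.dist_eq, dist_eq_norm, Real.coe_toNNReal _ (abs_nonneg C)]
    exact (abs_sub_map_le_sub N x y).trans (hC _)
  exact this.continuous

theorem EqN.pos {X : Type*} [NormedAddCommGroup X] [NormedSpace ℝ X] {N : Seminorm ℝ X}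
    (hN : EqN N) {x : X} (hx : x ≠ 0) : 0 < N x := by
  obtain ⟨c, hc, C, h⟩ := hN
  exact lt_of_lt_of_le (mul_pos hc (norm_pos_iff.2 hx)) (h x).1

theorem ps_N_contDiff {X : Type*} [NormedAddCommGroup X] [NormedSpace ℝ X] {N : Seminorm ℝ X}
    (hN : EqN N) (hS : SmN N) {θ : ℝ} (hθ : 0 < θ) :
    ContDiff ℝ ((⊤ : ℕ∞) : WithTop ℕ∞) (fun x => ps θ (N x)) := by
  rw [contDiff_iff_contDiffAt]
  intro x
  by_cases hx : N x < θ
  · have h1 : (fun x => ps θ (N x)) =ᶠ[𝓝 x] fun _ => (0 : ℝ) := by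
      filter_upwards [hN.continuous.continuousAt.eventually (gt_mem_nhds hx)] with y hy
      exact ps_zero hθ hy.le
    exact contDiffAt_const.congr_of_eventuallyEq h1
  · have hx0 : x ≠ 0 := by
      rintro rfl
      rw [map_zero] at hx
      exact hx hθ
    exact (ps_contDiff θ).contDiffAt.comp x (hS x hx0)

/-- The basic function. -/
noncomputable def Fm {X : Type*} [NormedAddCommGroup X] [NormedSpace ℝ X] (N s : Seminorm ℝ X)
    (T D : X →L[ℝ] X) (τ τ' u : ℝ) (x : X) : ℝ :=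
  s x + τ * ps u (N (x - T x)) + τ' * ps u (N (D x))

section Fm

variable {X : Type*} [NormedAddCommGroup X] [NormedSpace ℝ X] {N s : Seminorm ℝ X}
    {T D : X →L[ℝ] X} {τ τ' u : ℝ}

theorem convexOn_comp_ps {X : Type*} [NormedAddCommGroup X] [NormedSpace ℝ X] (N : Seminorm ℝ X)
    (L : X →ₗ[ℝ] X) (hu : 0 < u) : ConvexOn ℝ univ (fun x => ps u (N (L x))) := by
  refine ⟨convex_univ, fun x _ y _ a b ha hb hab => ?_⟩
  have h1 : N (L (a • x + b • y)) ≤ a * N (L x) + b * N (L y) := by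
    rw [map_add, map_smul, map_smul]
    refine (map_add_le_add N _ _).trans ?_
    rw [map_smul_eq_mul, map_smul_eq_mul, Real.norm_eq_abs, Real.norm_eq_abs, abs_of_nonneg ha,
      abs_of_nonneg hb]
  refine (ps_mono hu h1).trans ?_
  exact (ps_convex hu).2 (mem_univ _) (mem_univ _) ha hb hab

theorem Fm_convex (hu : 0 < u) (hτ : 0 ≤ τ) (hτ' : 0 ≤ τ') :
    ConvexOn ℝ univ (Fm N s T D τ τ' u) := by
  have h1 : ConvexOn ℝ univ (fun x => s x) := s.convexOn
  have h2 := (convexOn_comp_ps N ((ContinuousLinearMap.id ℝ X - T : X →L[ℝ] X) : X →ₗ[ℝ] X)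
    hu).smul hτ
  have h3 := (convexOn_comp_ps N (D : X →ₗ[ℝ] X) hu).smul hτ'
  exact (h1.add h2).add h3

theorem Fm_even (x : X) : Fm N s T D τ τ' u (-x) = Fm N s T D τ τ' u x := by
  unfold Fm
  rw [map_neg_eq_map, map_neg, map_neg, map_neg_eq_map]
  have : -x - -T x = -(x - T x) := by abel
  rw [this, map_neg_eq_map]

theorem Fm_continuous (hN : EqN N) (hs : Continuous fun x => s x) :
    Continuous (Fm N s T D τ τ' u) := by
  have h1 := (ps_contDiff u).continuous
  have h2 := hN.continuous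
  unfold Fm
  exact (hs.add (continuous_const.mul (h1.comp (h2.comp (continuous_id.sub T.continuous))))).add
    (continuous_const.mul (h1.comp (h2.comp D.continuous)))

theorem Fm_contDiffAt (hN : EqN N) (hS : SmN N) (hu : 0 < u) {x : X}
    (hs : ContDiffAt ℝ ((⊤ : ℕ∞) : WithTop ℕ∞) (fun x => s x) x) :
    ContDiffAt ℝ ((⊤ : ℕ∞) : WithTop ℕ∞) (Fm N s T D τ τ' u) x := by
  have h1 := ps_N_contDiff hN hS hu
  have h2 : ContDiff ℝ ((⊤ : ℕ∞) : WithTop ℕ∞) (fun x => ps u (N (x - T x))) :=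
    h1.comp (contDiff_id.sub T.contDiff)
  have h3 : ContDiff ℝ ((⊤ : ℕ∞) : WithTop ℕ∞) (fun x => ps u (N (D x))) :=
    h1.comp D.contDiff
  exact (hs.add (contDiffAt_const.mul h2.contDiffAt)).add (contDiffAt_const.mul h3.contDiffAt)

theorem Fm_le (hu : 0 < u) (hτ : 0 ≤ τ) (hτ' : 0 ≤ τ') (x : X) :
    Fm N s T D τ τ' u x ≤ s x + τ * N (x - T x) + τ' * N (D x) := by
  unfold Fm
  have h1 := ps_le hu (apply_nonneg N (x - T x))
  have h2 := ps_le hu (apply_nonneg N (D x))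
  gcongr

theorem le_Fm (hu : 0 < u) (hτ : 0 ≤ τ) (hτ' : 0 ≤ τ') (x : X) :
    s x + τ * (N (x - T x) - 2 * u) + τ' * (N (D x) - 2 * u) ≤ Fm N s T D τ τ' u x := by
  unfold Fm
  have h1 := ps_ge hu (N (x - T x))
  have h2 := ps_ge hu (N (D x))
  gcongr

/-- composition with `K * hh (· - a)` -/
noncomputable def fm (K a : ℝ) (F : X → ℝ) (x : X) : ℝ := K * hh (F x - a)

theorem fm_convex {K a : ℝ} (hK : 0 ≤ K) {F : X → ℝ} (hF : ConvexOn ℝ univ F) :
    ConvexOn ℝ univ (fm K a F) := by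
  have h1 : ConvexOn ℝ univ (fun x => hh (F x - a)) := by
    refine ⟨convex_univ, fun x _ y _ c d hc hd hcd => ?_⟩
    have h2 : F (c • x + d • y) - a ≤ c • (F x - a) + d • (F y - a) := by
      have := hF.2 (mem_univ x) (mem_univ y) hc hd hcd
      simp only [smul_eq_mul] at this ⊢
      have h3 : a = (c + d) * a := by rw [hcd, one_mul]
      nlinarith
    exact (hh_mono h2).trans (hh_convex.2 (mem_univ _) (mem_univ _) hc hd hcd)
  exact h1.smul hK

theorem fm_continuous {K a : ℝ} {F : X → ℝ} (hF : Continuous F) : Continuous (fm K a F) :=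
  continuous_const.mul (hh_contDiff.continuous.comp (hF.sub continuous_const))

theorem fm_nonneg {K a : ℝ} (hK : 0 ≤ K) (F : X → ℝ) (x : X) : 0 ≤ fm K a F x :=
  mul_nonneg hK (hh_nonneg _)

theorem fm_zero {K a : ℝ} {F : X → ℝ} {x : X} (h : F x ≤ a) : fm K a F x = 0 := by
  unfold fm
  rw [hh_zero (by linarith), mul_zero]

theorem fm_contDiffAt {K a : ℝ} {F : X → ℝ} (hFc : Continuous F) {x : X}
    (h : a ≤ F x → ContDiffAt ℝ ((⊤ : ℕ∞) : WithTop ℕ∞) F x) :
    ContDiffAt ℝ ((⊤ : ℕ∞) : WithTop ℕ∞) (fm K a F) x := by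
  by_cases hx : F x < a
  · have h1 : fm K a F =ᶠ[𝓝 x] fun _ => (0 : ℝ) := by
      filter_upwards [hFc.continuousAt.eventually (gt_mem_nhds hx)] with y hy
      exact fm_zero hy.le
    exact contDiffAt_const.congr_of_eventuallyEq h1
  · have h2 := h (not_lt.1 hx)
    have h3 : ContDiffAt ℝ ((⊤ : ℕ∞) : WithTop ℕ∞) (fun x => hh (F x - a)) x :=
      hh_contDiff.contDiffAt.comp x (h2.sub contDiffAt_const)
    exact contDiffAt_const.mul h3

/-- if `fm ≤ 1` with `K = 2 / hh u` then `F < a + u` -/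
theorem fm_lt {u a : ℝ} (hu : 0 < u) {F : X → ℝ} {x : X} (h : fm (2 / hh u) a F x ≤ 1) :
    F x < a + u := by
  by_contra hc
  push Not at hc
  have h1 : hh u ≤ hh (F x - a) := hh_mono (by linarith)
  have h2 := hh_pos hu
  unfold fm at h
  have h3 : (2 : ℝ) ≤ 2 / hh u * hh (F x - a) := by
    calc (2 : ℝ) = 2 / hh u * hh u := by field_simp
      _ ≤ _ := by gcongr
  linarith

end Fm

end Pool.Agent.Helper912.SA
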