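import Pool.Agent.Helper912.SA.ApprChain

set_option autoImplicit false

namespace Pool.Agent.Helper912.SA

open Set Filter Topology

/-- the small parameters -/
noncomputable def un (n : ℕ) : ℝ := 1 / ((n : ℝ) + 1) ^ 2

/-- the decreasing coefficients -/
noncomputable def tn (τ : ℝ) (n : ℕ) : ℝ := τ * (1 + 1 / ((n : ℝ) + 1))

theorem un_pos (n : ℕ) : 0 < un n := by unfold un; positivity

theorem un_le_one (n : ℕ) : un n ≤ 1 := by
  unfold un
  rw [div_le_one (by positivity)]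
  have : (0 : ℝ) ≤ n := Nat.cast_nonneg n
  nlinarith

theorem tn_ge {τ : ℝ} (hτ : 0 < τ) (n : ℕ) : τ ≤ tn τ n := by
  unfold tn
  have : 0 < 1 / ((n : ℝ) + 1) := by positivity
  nlinarith

theorem tn_le {τ : ℝ} (hτ : 0 < τ) (n : ℕ) : tn τ n ≤ 2 * τ := by
  unfold tn
  have : 1 / ((n : ℝ) + 1) ≤ 1 := by
    rw [div_le_one (by positivity)]
    have : (0 : ℝ) ≤ n := Nat.cast_nonneg n
    linarith
  nlinarith

theorem tn_pos {τ : ℝ} (hτ : 0 < τ) (n : ℕ) : 0 < tn τ n := hτ.trans_le (tn_ge hτ n)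

theorem un_le (n : ℕ) : un n ≤ 1 / ((n : ℝ) + 1) := by
  unfold un
  apply one_div_le_one_div_of_le (by positivity)
  have : (0 : ℝ) ≤ n := Nat.cast_nonneg n
  nlinarith

theorem exists_un_lt {a : ℝ} (ha : 0 < a) : ∃ n, un n < a := by
  obtain ⟨n, hn⟩ := exists_nat_one_div_lt ha
  exact ⟨n, (un_le n).trans_lt hn⟩

section main

variable {X : Type} [NormedAddCommGroup X] [NormedSpace ℝ X] {p N : Seminorm ℝ X}
  {μ : Ordinal.{0}} {Q : Ordinal.{0} → X →L[ℝ] X}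

/-- stop before or after the jump -/
def AA (hμ : Order.IsSuccLimit μ) (b : Bool) (α : Set.Iio μ) : Set.Iio μ :=
  if b then ⟨Order.succ α.1, hμ.succ_lt α.2⟩ else α

/-- the functions of the family -/
noncomputable def FF (hμ : Order.IsSuccLimit μ) (N : Seminorm ℝ X) (Q : Ordinal.{0} → X →L[ℝ] X)
    (s : Set.Iio μ → ℕ → Seminorm ℝ X) (τ : ℝ) (i : Bool × Set.Iio μ × ℕ) : X → ℝ :=
  Fm N (s (AA hμ i.1 i.2.1) i.2.2) (Q (AA hμ i.1 i.2.1).1)
    (Q (Order.succ i.2.1.1) - Q i.2.1.1) τ (tn τ i.2.2) (un i.2.2)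

/-- the path function -/
noncomputable def gg (p N : Seminorm ℝ X) (Q : Ordinal.{0} → X →L[ℝ] X) (τ : ℝ) (x : X)
    (α : Ordinal.{0}) : ℝ := p (Q α x) + τ * N (x - Q α x)

theorem FF_ge (hμ : Order.IsSuccLimit μ) {s : Set.Iio μ → ℕ → Seminorm ℝ X}
    (hs1 : ∀ α n x, p (Q α.1 x) ≤ s α n x) {τ : ℝ} (hτ : 0 < τ) (i : Bool × Set.Iio μ × ℕ) (x : X) :
    gg p N Q τ x (AA hμ i.1 i.2.1).1 +
      tn τ i.2.2 * N (Q (Order.succ i.2.1.1) x - Q i.2.1.1 x) - 6 * τ * un i.2.2 ≤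
      FF hμ N Q s τ i x := by
  have h1 := le_Fm (N := N) (s := s (AA hμ i.1 i.2.1) i.2.2) (T := Q (AA hμ i.1 i.2.1).1)
    (D := Q (Order.succ i.2.1.1) - Q i.2.1.1) (un_pos i.2.2) hτ.le (tn_pos hτ i.2.2).le x
  have h2 := hs1 (AA hμ i.1 i.2.1) i.2.2 x
  have h3 := tn_le hτ i.2.2
  have h4 := un_pos i.2.2
  rw [sub_apply] at h1
  unfold gg FF
  refine le_trans ?_ h1
  nlinarith

theorem FF_le (hμ : Order.IsSuccLimit μ) {s : Set.Iio μ → ℕ → Seminorm ℝ X}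
    (hs1 : ∀ α n x, s α n x ≤ (1 + un n) * p (Q α.1 x)) {τ : ℝ} (hτ : 0 < τ)
    (i : Bool × Set.Iio μ × ℕ) (x : X) :
    FF hμ N Q s τ i x ≤ (1 + un i.2.2) * p (Q (AA hμ i.1 i.2.1).1 x) +
      τ * N (x - Q (AA hμ i.1 i.2.1).1 x) +
      tn τ i.2.2 * N (Q (Order.succ i.2.1.1) x - Q i.2.1.1 x) := by
  have h1 := Fm_le (N := N) (s := s (AA hμ i.1 i.2.1) i.2.2) (T := Q (AA hμ i.1 i.2.1).1)
    (D := Q (Order.succ i.2.1.1) - Q i.2.1.1) (un_pos i.2.2) hτ.le (tn_pos hτ i.2.2).le x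
  have h2 := hs1 (AA hμ i.1 i.2.1) i.2.2 x
  rw [sub_apply] at h1
  unfold FF
  refine h1.trans ?_
  linarith

theorem contra (hμ : Order.IsSuccLimit μ) (hN : EqN N) {s : Set.Iio μ → ℕ → Seminorm ℝ X}
    (hs1 : ∀ α n x, p (Q α.1 x) ≤ s α n x) {τ : ℝ} (hτ : 0 < τ) (x : X)
    (hx : ∀ i, FF hμ N Q s τ i x < 1 + 3 * un i.2.2) (b : Bool) (α : Set.Iio μ)
    (h1 : 1 ≤ gg p N Q τ x (AA hμ b α).1) (hD : Q (Order.succ α.1) x ≠ Q α.1 x) : False := by
  have hj : 0 < N (Q (Order.succ α.1) x - Q α.1 x) := hN.pos (sub_ne_zero.2 hD)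
  set j := N (Q (Order.succ α.1) x - Q α.1 x) with hjd
  obtain ⟨n, hn⟩ := exists_un_lt (show 0 < τ * j / (3 + 6 * τ) by positivity)
  have h2 := FF_ge (p := p) (N := N) hμ hs1 hτ (b, α, n) x
  have h3 := hx (b, α, n)
  simp only at h2 h3
  rw [← hjd] at h2
  have h4 : un n * (3 + 6 * τ) < τ * j := by
    rwa [lt_div_iff₀ (by positivity)] at hn
  have h5 := tn_ge hτ n
  nlinarith

theorem main_lt [CompleteSpace X] (hQ : Chain p N μ Q) (hp : EqN p) (hN : EqN N) (hS : SmN N)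
    {s : Set.Iio μ → ℕ → Seminorm ℝ X}
    (hs1 : ∀ α n x, p (Q α.1 x) ≤ s α n x) {τ : ℝ} (hτ : 0 < τ) (x : X)
    (hx : ∀ i, FF hQ.lim N Q s τ i x < 1 + 3 * un i.2.2) : ∀ α ≤ μ, gg p N Q τ x α < 1 := by
  -- the main case
  have key : ∀ α ≤ μ, Q α x ≠ x → gg p N Q τ x α < 1 := by
    intro α hα hne
    by_contra hc
    push Not at hc
    obtain ⟨β, hβ, hαβ, h1, h2⟩ := hQ.next_jump x hα hne
    refine contra hQ.lim hN hs1 hτ x hx false ⟨β, hβ⟩ ?_ h2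
    have : gg p N Q τ x β = gg p N Q τ x α := by unfold gg; rw [h1]
    simpa [AA, this] using hc
  intro α hα
  by_cases hne : Q α x = x
  swap
  · exact key α hα hne
  by_contra hc
  push Not at hc
  have hgx : gg p N Q τ x α = p x := by
    unfold gg; rw [hne, sub_self, map_zero, mul_zero, add_zero]
  rw [hgx] at hc
  have hx0 : x ≠ 0 := by
    rintro rfl
    rw [map_zero] at hc
    norm_num at hc
  rcases hQ.last_jump x hx0 with ⟨β, hβ, h1, h2⟩ | ⟨l, hl, hlim, h1, h2⟩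
  · refine contra hQ.lim hN hs1 hτ x hx true ⟨β, hβ⟩ ?_ ?_
    · have : gg p N Q τ x (Order.succ β) = p x := by
        unfold gg; rw [h1, sub_self, map_zero, mul_zero, add_zero]
      change 1 ≤ gg p N Q τ x (Order.succ β)
      rw [this]; exact hc
    · simp only
      rw [h1]
      exact fun h => h2 h.symm
  · obtain ⟨y, hy1, hy2⟩ := exists_norming p hp x
    obtain ⟨c, hc0, C, hcC⟩ := id hN
    obtain ⟨γ, hγ, hγ2⟩ := hQ.shrink hN hS y (η := τ * c / 2) (by positivity) hlim hl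
    have h3 := hγ2 γ le_rfl hγ x
    rw [h1] at h3
    have h4 : y (x - Q γ x) ≤ τ / 2 * N (x - Q γ x) := by
      refine (le_abs_self _).trans (h3.trans ?_)
      have := (hcC (x - Q γ x)).1
      nlinarith
    have h5 : p x - p (Q γ x) ≤ y (x - Q γ x) := by
      rw [map_sub, hy2]
      have := (le_abs_self _).trans (hy1 (Q γ x))
      linarith
    have h6 : 0 ≤ N (x - Q γ x) := apply_nonneg _ _
    have h7 := key γ (hγ.le.trans hl) (h2 γ hγ)
    unfold gg at h7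
    nlinarith

end main

end Pool.Agent.Helper912.SA
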