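import Pool.Agent.Helper912.SA.ApprChain2

set_option autoImplicit false

namespace Pool.Agent.Helper912.SA

open Set Filter Topology

theorem seminorm_continuous_of_le {X : Type*} [NormedAddCommGroup X] [NormedSpace ℝ X]
    {s p : Seminorm ℝ X} (hp : EqN p) {K : ℝ} (h : ∀ x, s x ≤ K * p x) :
    Continuous fun x => s x := by
  obtain ⟨c, hc, C, hC⟩ := hp
  have h1 : ∀ x, s x ≤ (|K| * |C|) * ‖x‖ := by
    intro x
    have h2 := (hC x).2
    have h3 : K * p x ≤ |K| * p x := mul_le_mul_of_nonneg_right (le_abs_self K) (apply_nonneg p x)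
    have h4 : C * ‖x‖ ≤ |C| * ‖x‖ := mul_le_mul_of_nonneg_right (le_abs_self C) (norm_nonneg x)
    have h5 : |K| * p x ≤ |K| * (|C| * ‖x‖) :=
      mul_le_mul_of_nonneg_left (h2.trans h4) (abs_nonneg K)
    linarith [h x]
  have : LipschitzWith (Real.toNNReal (|K| * |C|)) (fun x => s x) := by
    apply LipschitzWith.of_dist_le_mul
    intro x y
    rw [Real.dist_eq, dist_eq_norm, Real.coe_toNNReal _ (by positivity)]
    exact (abs_sub_map_le_sub s x y).trans (h1 _)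
  exact this.continuous

theorem exists_common {α : Type*} {S : Set α} (hS : S.Finite) (e : α → ℝ) (he : ∀ a ∈ S, 0 < e a) :
    ∃ ρ > (0 : ℝ), ∀ a ∈ S, ρ ≤ e a := by
  classical
  induction S, hS using Set.Finite.induction_on with
  | empty => exact ⟨1, one_pos, by simp⟩
  | @insert a S _ _ ih =>
    obtain ⟨ρ, hρ, h⟩ := ih fun b hb => he b (Set.mem_insert_of_mem _ hb)
    refine ⟨min ρ (e a), lt_min hρ (he a (Set.mem_insert _ _)), ?_⟩
    intro b hb
    rcases hb with rfl | hb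
    · exact min_le_right _ _
    · exact (min_le_left _ _).trans (h b hb)

section main

variable {X : Type} [NormedAddCommGroup X] [NormedSpace ℝ X] {p N : Seminorm ℝ X}
  {μ : Ordinal.{0}} {Q : Ordinal.{0} → X →L[ℝ] X}

/-- the upper bound -/
noncomputable def RR (hμ : Order.IsSuccLimit μ) (p N : Seminorm ℝ X) (Q : Ordinal.{0} → X →L[ℝ] X)
    (τ : ℝ) (i : Bool × Set.Iio μ × ℕ) (x : X) : ℝ :=
  (1 + un i.2.2) * p (Q (AA hμ i.1 i.2.1).1 x) +
      τ * N (x - Q (AA hμ i.1 i.2.1).1 x) +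
      tn τ i.2.2 * N (Q (Order.succ i.2.1.1) x - Q i.2.1.1 x)

theorem RR_add (hμ : Order.IsSuccLimit μ) {τ : ℝ} (hτ : 0 < τ) (i : Bool × Set.Iio μ × ℕ)
    (x v : X) : RR hμ p N Q τ i (x + v) ≤ RR hμ p N Q τ i x + RR hμ p N Q τ i v := by
  unfold RR
  set A := (AA hμ i.1 i.2.1).1
  have h1 : p (Q A (x + v)) ≤ p (Q A x) + p (Q A v) := by
    rw [map_add]; exact map_add_le_add p _ _
  have h2 : N (x + v - Q A (x + v)) ≤ N (x - Q A x) + N (v - Q A v) := by
    have : x + v - Q A (x + v) = (x - Q A x) + (v - Q A v) := by rw [map_add]; abel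
    rw [this]; exact map_add_le_add N _ _
  have h3 : N (Q (Order.succ i.2.1.1) (x + v) - Q i.2.1.1 (x + v)) ≤
      N (Q (Order.succ i.2.1.1) x - Q i.2.1.1 x) + N (Q (Order.succ i.2.1.1) v - Q i.2.1.1 v) := by
    have : Q (Order.succ i.2.1.1) (x + v) - Q i.2.1.1 (x + v) =
      (Q (Order.succ i.2.1.1) x - Q i.2.1.1 x) + (Q (Order.succ i.2.1.1) v - Q i.2.1.1 v) := by
      rw [map_add, map_add]; abel
    rw [this]; exact map_add_le_add N _ _
  have h4 := un_pos i.2.2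
  have h5 := tn_pos hτ i.2.2
  have e1 := mul_le_mul_of_nonneg_left h1 (by linarith : (0 : ℝ) ≤ 1 + un i.2.2)
  have e2 := mul_le_mul_of_nonneg_left h2 hτ.le
  have e3 := mul_le_mul_of_nonneg_left h3 h5.le
  linarith

theorem RR_le (hQ : Chain p N μ Q) {τ C : ℝ} (hτ : 0 < τ) (hC : ∀ x, N x ≤ C * p x)
    (i : Bool × Set.Iio μ × ℕ) (v : X) :
    RR hQ.lim p N Q τ i v ≤ (1 + un i.2.2 + 6 * τ * C) * p v := by
  unfold RR
  set A := (AA hQ.lim i.1 i.2.1).1
  have h1 := hQ.le₁ A v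
  have h2 : N (v - Q A v) ≤ 2 * N v := by
    have := map_sub_le_add N v (Q A v)
    have := hQ.le₂ A v
    linarith
  have h3 : N (Q (Order.succ i.2.1.1) v - Q i.2.1.1 v) ≤ 2 * N v := by
    have := map_sub_le_add N (Q (Order.succ i.2.1.1) v) (Q i.2.1.1 v)
    have := hQ.le₂ (Order.succ i.2.1.1) v
    have := hQ.le₂ i.2.1.1 v
    linarith
  have h4 := un_pos i.2.2
  have h5 := tn_pos hτ i.2.2
  have h6 := tn_le hτ i.2.2
  have h7 := hC v
  have h8 : 0 ≤ N v := apply_nonneg _ _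
  have e1 := mul_le_mul_of_nonneg_left h1 (by linarith : (0 : ℝ) ≤ 1 + un i.2.2)
  have e2 := mul_le_mul_of_nonneg_left h2 hτ.le
  have e3 := mul_le_mul_of_nonneg_left h3 h5.le
  have e4 : tn τ i.2.2 * (2 * N v) ≤ 2 * τ * (2 * N v) :=
    mul_le_mul_of_nonneg_right h6 (by linarith)
  have e5 : 6 * τ * N v ≤ 6 * τ * (C * p v) := mul_le_mul_of_nonneg_left h7 (by linarith)
  linarith

theorem eventually_small (hQ : Chain p N μ Q) {s : Set.Iio μ → ℕ → Seminorm ℝ X}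
    (hs1 : ∀ α n x, p (Q α.1 x) ≤ s α n x) {τ : ℝ} (hτ : 0 < τ) (x : X) (hpx : p x ≤ 1)
    (hx : ∀ i, FF hQ.lim N Q s τ i x < 1 + 3 * un i.2.2) (b : Bool) (α : Set.Iio μ)
    (hD : 0 < N (Q (Order.succ α.1) x - Q α.1 x)) :
    ∃ n₀ : ℕ, ∃ e > (0 : ℝ), ∀ n ≥ n₀, RR hQ.lim p N Q τ (b, α, n) x ≤ 1 - e := by
  set j := N (Q (Order.succ α.1) x - Q α.1 x) with hj
  have h1 : gg p N Q τ x (AA hQ.lim b α).1 + τ * j < 1 := by
    obtain ⟨m, hm⟩ := exists_nat_one_div_lt (show 0 < τ * j / (3 + 6 * τ) by positivity)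
    have h2 := FF_ge (p := p) (N := N) hQ.lim hs1 hτ (b, α, m) x
    have h3 := hx (b, α, m)
    simp only at h2 h3
    rw [← hj] at h2
    rw [lt_div_iff₀ (by positivity)] at hm
    have h4 : un m = 1 / ((m : ℝ) + 1) * (1 / ((m : ℝ) + 1)) := by
      unfold un; rw [div_mul_div_comm, one_mul, sq]
    have h5 : tn τ m = τ + τ * (1 / ((m : ℝ) + 1)) := by unfold tn; ring
    set w : ℝ := 1 / ((m : ℝ) + 1) with hw
    have hw0 : 0 < w := by positivity
    rw [h4] at h2 h3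
    rw [h5] at h2
    have h6 : w * (w * (3 + 6 * τ)) < w * (τ * j) := mul_lt_mul_of_pos_left hm hw0
    nlinarith
  set e := 1 - (gg p N Q τ x (AA hQ.lim b α).1 + τ * j) with he
  have he0 : 0 < e := by linarith
  obtain ⟨n₀, hn₀⟩ := exists_nat_one_div_lt (show 0 < e / 2 / (1 + τ * j) by positivity)
  refine ⟨n₀, e / 2, by positivity, fun n hn => ?_⟩
  have h2 : 1 / ((n : ℝ) + 1) ≤ 1 / ((n₀ : ℝ) + 1) := by
    apply one_div_le_one_div_of_le (by positivity)
    have : (n₀ : ℝ) ≤ n := by exact_mod_cast hn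
    linarith
  have h3 := un_le n
  have h5 : tn τ n = τ + τ * (1 / ((n : ℝ) + 1)) := by unfold tn; ring
  rw [lt_div_iff₀ (by positivity)] at hn₀
  unfold RR
  simp only
  rw [← hj, h5]
  set w : ℝ := 1 / ((n : ℝ) + 1) with hw
  have hw0 : 0 < w := by positivity
  have h6 : w * (1 + τ * j) ≤ 1 / ((n₀ : ℝ) + 1) * (1 + τ * j) :=
    mul_le_mul_of_nonneg_right h2 (by positivity)
  have h7 := hQ.le₁ (AA hQ.lim b α).1 x
  have h8 : un n * p (Q (AA hQ.lim b α).1 x) ≤ w * 1 :=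
    mul_le_mul h3 (h7.trans hpx) (apply_nonneg _ _) hw0.le
  have h9 : gg p N Q τ x (AA hQ.lim b α).1 = p (Q (AA hQ.lim b α).1 x) +
    τ * N (x - Q (AA hQ.lim b α).1 x) := rfl
  nlinarith

end main

end Pool.Agent.Helper912.SA
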