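import Pool.Agent.Helper912.SA.Defs

set_option autoImplicit false

namespace Pool.Agent.Helper912.SA

open Set Filter Topology Cardinal

/-- A continuous transfinite chain of projections. -/
structure Chain {X : Type} [NormedAddCommGroup X] [NormedSpace ℝ X] (p N : Seminorm ℝ X)
    (μ : Ordinal.{0}) (Q : Ordinal.{0} → X →L[ℝ] X) : Prop where
  lim : Order.IsSuccLimit μ
  zero : Q 0 = 0
  up : ∀ {α β : Ordinal.{0}}, α ≤ β → ∀ x, Q β (Q α x) = Q α x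
  down : ∀ {α β : Ordinal.{0}}, α ≤ β → ∀ x, Q α (Q β x) = Q α x
  le₁ : ∀ α x, p (Q α x) ≤ p x
  le₂ : ∀ α x, N (Q α x) ≤ N x
  cont : ∀ l : Ordinal.{0}, Order.IsSuccLimit l → l ≤ μ → ∀ x, ∀ ε > (0 : ℝ), ∃ α < l, ∀ β, α ≤ β → β < l →
    ‖Q β x - Q l x‖ < ε
  top : ∀ x, Q μ x = x

end Pool.Agent.Helper912.SA
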