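import Mathlib

set_option autoImplicit false

namespace Pool.Agent.Helper912.SA

open Set Filter Topology

/-- `p` is an equivalent norm. -/
def EqN {X : Type*} [NormedAddCommGroup X] [NormedSpace ℝ X] (p : Seminorm ℝ X) : Prop :=
  ∃ c > (0 : ℝ), ∃ C : ℝ, ∀ x : X, c * ‖x‖ ≤ p x ∧ p x ≤ C * ‖x‖

/-- `p` is `C^∞` away from the origin. -/
def SmN {X : Type*} [NormedAddCommGroup X] [NormedSpace ℝ X] (p : Seminorm ℝ X) : Prop :=
  ∀ x : X, x ≠ 0 → ContDiffAt ℝ ((⊤ : ℕ∞) : WithTop ℕ∞) (fun x => p x) x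

/-- Every equivalent norm is approximated from above by `C^∞` equivalent norms. -/
def Appr (X : Type*) [NormedAddCommGroup X] [NormedSpace ℝ X] : Prop :=
  ∀ p : Seminorm ℝ X, EqN p → ∀ δ > (0 : ℝ), ∃ q : Seminorm ℝ X, SmN q ∧
    ∀ x, p x ≤ q x ∧ q x ≤ (1 + δ) * p x

/-- `x * exp (-1/x)` for `x > 0`, zero otherwise: smooth, convex, monotone. -/
noncomputable def hh (x : ℝ) : ℝ := x * expNegInvGlue x

end Pool.Agent.Helper912.SA
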