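import Pool.Agent.Helper912.SA.Defs

set_option autoImplicit false

namespace Pool.Agent.Helper912.SA

open Set Filter Topology Cardinal



theorem partial_min_line {X C : Type*} [NormedAddCommGroup X] [NormedSpace ℝ X]
    [NormedAddCommGroup C] [NormedSpace ℝ C] {K : X × C → ℝ} (hK : ConvexOn ℝ univ K)
    (x : X) (c w : C) : ConvexOn ℝ univ (fun t : ℝ => K (x, c + t • w)) := by
  refine ⟨convex_univ, fun s _ t _ a b ha hb hab => ?_⟩
  have h := hK.2 (mem_univ (x, c + s • w)) (mem_univ (x, c + t • w)) ha hb hab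
  have e : a • ((x, c + s • w) : X × C) + b • ((x, c + t • w) : X × C) =
      (x, c + (a • s + b • t) • w) := by
    refine Prod.ext ?_ ?_
    · show a • x + b • x = x
      rw [← add_smul, hab, one_smul]
    · show a • (c + s • w) + b • (c + t • w) = c + (a • s + b • t) • w
      have h1 : c = a • c + b • c := by rw [← add_smul, hab, one_smul]
      conv_rhs => rw [h1]
      simp only [smul_add, add_smul, smul_smul, smul_eq_mul]
      abel
  rw [e] at h
  exact h

theorem partial_min_hd {X C : Type*} [NormedAddCommGroup X] [NormedSpace ℝ X]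
    [NormedAddCommGroup C] [NormedSpace ℝ C] {Y : Type*} [NormedAddCommGroup Y] [NormedSpace ℝ Y]
    {K : X × C → Y} (x : X) (c w : C) (t : ℝ)
    (hK : DifferentiableAt ℝ K (x, c + t • w)) :
    HasDerivAt (fun t : ℝ => K (x, c + t • w)) (fderiv ℝ K (x, c + t • w) (0, w)) t := by
  have h1 : HasDerivAt (fun t : ℝ => ((x, c + t • w) : X × C)) ((0, w) : X × C) t := by
    refine (hasDerivAt_const t x).prodMk ?_
    have h2 := ((hasDerivAt_id t).smul_const w).const_add c
    rw [one_smul] at h2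
    exact h2
  exact HasFDerivAt.comp_hasDerivAt (f := fun t : ℝ => ((x, c + t • w) : X × C)) t
    hK.hasFDerivAt h1

/-- a critical point of a convex function is a minimum -/
theorem partial_min_crit {X C : Type*} [NormedAddCommGroup X] [NormedSpace ℝ X]
    [NormedAddCommGroup C] [NormedSpace ℝ C] {K : X × C → ℝ} (hK : ConvexOn ℝ univ K)
    (x : X) (c : C) (hd : DifferentiableAt ℝ K (x, c))
    (h0 : ∀ w, fderiv ℝ K (x, c) (0, w) = 0) (c' : C) : K (x, c) ≤ K (x, c') := by
  have h1 := partial_min_hd (K := K) x c (c' - c) 0 (by rw [zero_smul, add_zero]; exact hd)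
  rw [zero_smul, add_zero, h0] at h1
  have h2 := (partial_min_line hK x c (c' - c)).le_slope_of_hasDerivAt (mem_univ 0) (mem_univ 1)
    one_pos h1
  rw [slope_def_field] at h2
  simp only [zero_smul, add_zero, one_smul, add_sub_cancel, sub_zero, div_one] at h2
  linarith

theorem partial_min_gen {X C : Type*} [NormedAddCommGroup X] [NormedSpace ℝ X] [CompleteSpace X]
    [NormedAddCommGroup C] [InnerProductSpace ℝ C] [FiniteDimensional ℝ C]
    (Φ : X × C → ℝ) (hΦ : ContDiff ℝ ((⊤ : ℕ∞) : WithTop ℕ∞) Φ)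
    (hconv : ConvexOn ℝ univ Φ) (hnn : ∀ z, 0 ≤ Φ z) {σ : ℝ} (hσ : 0 < σ) :
    ∃ D : X → ℝ, ContDiff ℝ ((⊤ : ℕ∞) : WithTop ℕ∞) D ∧ ConvexOn ℝ univ D ∧
      (∀ x c, D x ≤ Φ (x, c) + σ * ‖c‖ ^ 2) ∧ (∀ x, ∃ c, D x = Φ (x, c) + σ * ‖c‖ ^ 2) := by
  have hprop : ProperSpace C := FiniteDimensional.proper ℝ C
  have hcomp : CompleteSpace C := FiniteDimensional.complete ℝ C
  classical
  let G : X × C → ℝ := fun z => Φ z + σ * ‖z.2‖ ^ 2
  have hG : ContDiff ℝ ((⊤ : ℕ∞) : WithTop ℕ∞) G :=
    hΦ.add (contDiff_const.mul (contDiff_snd.norm_sq ℝ))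
  have hGd : Differentiable ℝ G := hG.differentiable (by simp)
  have hΦd : Differentiable ℝ Φ := hΦ.differentiable (by simp)
  have hGc : ConvexOn ℝ univ G := by
    refine hconv.add ?_
    have h1 : ConvexOn ℝ univ (fun z : X × C => ‖z.2‖) :=
      (convexOn_univ_norm (E := C)).comp_linearMap (LinearMap.snd ℝ X C)
    have h2 := (h1.pow (fun z _ => norm_nonneg _) 2).smul hσ.le
    exact h2
  -- minimisers
  have hmin : ∀ x, ∃ c : C, ∀ c', G (x, c) ≤ G (x, c') := by
    intro x
    have hcont : Continuous (fun c : C => G (x, c)) :=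
      hG.continuous.comp (continuous_const.prodMk continuous_id)
    refine hcont.exists_forall_le ?_
    have h1 : Tendsto (fun c : C => σ * ‖c‖ ^ 2) (cocompact C) atTop :=
      ((tendsto_pow_atTop (by norm_num : (2 : ℕ) ≠ 0)).comp
        (tendsto_norm_cocompact_atTop (E := C))).const_mul_atTop hσ
    refine tendsto_atTop_mono (fun c => ?_) h1
    show σ * ‖c‖ ^ 2 ≤ Φ (x, c) + σ * ‖c‖ ^ 2
    have := hnn (x, c)
    linarith
  choose cm hcm using hmin
  refine ⟨fun x => G (x, cm x), ?_, ?_, ?_, ?_⟩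
  · rw [contDiff_iff_contDiffAt]
    intro x0
    let H : X × C → (C →L[ℝ] ℝ) := fun z => (fderiv ℝ G z).comp (ContinuousLinearMap.inr ℝ X C)
    have hH : ContDiff ℝ ((⊤ : ℕ∞) : WithTop ℕ∞) H := by
      have h1 : ContDiff ℝ ((⊤ : ℕ∞) : WithTop ℕ∞) (fderiv ℝ G) :=
        hG.fderiv_right (by simp)
      exact h1.clm_comp contDiff_const
    have hHd : Differentiable ℝ H := hH.differentiable (by simp)
    set u : X × C := (x0, cm x0) with hu
    have hH0 : H u = 0 := by
      have h1 : IsLocalMin (fun c : C => G (x0, c)) (cm x0) :=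
        Filter.Eventually.of_forall (hcm x0)
      have h2 : HasFDerivAt (fun c : C => G (x0, c)) (H u) (cm x0) := by
        have h3 : HasFDerivAt (fun c : C => ((x0, c) : X × C)) (ContinuousLinearMap.inr ℝ X C)
            (cm x0) := (hasFDerivAt_const x0 (cm x0)).prodMk (hasFDerivAt_id (cm x0))
        exact HasFDerivAt.comp (g := G) (f := fun c : C => ((x0, c) : X × C)) (cm x0)
          (hGd u).hasFDerivAt h3
      exact h1.hasFDerivAt_eq_zero h2
    have hpos : ∀ w : C, 2 * σ * ‖w‖ ^ 2 ≤ (fderiv ℝ H u (0, w)) w := by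
      intro w
      let m : ℝ → ℝ := fun t => fderiv ℝ Φ (x0, cm x0 + t • w) (0, w)
      have hm1 : ∀ t, HasDerivAt (fun t : ℝ => Φ (x0, cm x0 + t • w)) (m t) t := fun t =>
        partial_min_hd x0 (cm x0) w t (hΦd _)
      have hmono : Monotone m := by
        have h1 := (partial_min_line hconv x0 (cm x0) w).monotoneOn_deriv
          (fun t _ => (hm1 t).differentiableAt)
        intro s t hst
        have h2 := h1 (mem_univ s) (mem_univ t) hst
        rwa [(hm1 s).deriv, (hm1 t).deriv] at h2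
      have hN : ∀ t, HasDerivAt (fun t : ℝ => σ * ‖cm x0 + t • w‖ ^ 2)
          (σ * (2 * inner ℝ (cm x0 + t • w) w)) t := by
        intro t
        have h2 := ((hasDerivAt_id t).smul_const w).const_add (cm x0)
        rw [one_smul] at h2
        exact (h2.norm_sq).const_mul σ
      have hGt : ∀ t, HasDerivAt (fun t : ℝ => G (x0, cm x0 + t • w))
          (H (x0, cm x0 + t • w) w) t := fun t => partial_min_hd x0 (cm x0) w t (hGd _)
      have heq : ∀ t, H (x0, cm x0 + t • w) w = m t + σ * (2 * inner ℝ (cm x0 + t • w) w) := by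
        intro t
        exact (hGt t).unique ((hm1 t).add (hN t))
      have hm2 : m = fun t => H (x0, cm x0 + t • w) w - σ * (2 * inner ℝ (cm x0 + t • w) w) := by
        funext t
        rw [heq]; ring
      have hHt : HasDerivAt (fun t : ℝ => H (x0, cm x0 + t • w)) (fderiv ℝ H u (0, w)) 0 := by
        have h1 := partial_min_hd x0 (cm x0) w 0 (K := H) (hHd _)
        rw [zero_smul, add_zero] at h1
        exact h1
      have hHw : HasDerivAt (fun t : ℝ => H (x0, cm x0 + t • w) w) ((fderiv ℝ H u (0, w)) w) 0 := by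
        have h1 := hHt.clm_apply (hasDerivAt_const (0 : ℝ) w)
        simpa using h1
      have hin : HasDerivAt (fun t : ℝ => σ * (2 * inner ℝ (cm x0 + t • w) w))
          (σ * (2 * ‖w‖ ^ 2)) 0 := by
        have h2 := ((hasDerivAt_id (0 : ℝ)).smul_const w).const_add (cm x0)
        rw [one_smul] at h2
        have h3 := (h2.inner ℝ (hasDerivAt_const (0 : ℝ) w))
        have h4 := (h3.const_mul 2).const_mul σ
        rw [inner_zero_right, zero_add, real_inner_self_eq_norm_sq] at h4
        exact h4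
      have hm3 : HasDerivAt m ((fderiv ℝ H u (0, w)) w - σ * (2 * ‖w‖ ^ 2)) 0 := by
        rw [hm2]
        exact hHw.sub hin
      have h5 := hm3.nonneg_of_monotone hmono
      linarith
    have hfr : Module.finrank ℝ C = Module.finrank ℝ (C →L[ℝ] ℝ) := by
      rw [← (LinearMap.toContinuousLinearMap (𝕜 := ℝ) (E := C) (F' := ℝ)).finrank_eq]
      exact (Subspace.dual_finrank_eq (K := ℝ) (V := C)).symm
    have hfd : FiniteDimensional ℝ (C →L[ℝ] ℝ) :=
      (LinearMap.toContinuousLinearMap (𝕜 := ℝ) (E := C) (F' := ℝ)).finiteDimensional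
    have hinv : (fderiv ℝ H u ∘L .inr ℝ X C).IsInvertible := by
      have hinj : Function.Injective
          ((fderiv ℝ H u ∘L .inr ℝ X C : C →L[ℝ] (C →L[ℝ] ℝ)) : C →ₗ[ℝ] (C →L[ℝ] ℝ)) := by
        rw [← LinearMap.ker_eq_bot, LinearMap.ker_eq_bot']
        intro w hw
        have h1 := hpos w
        have h2 : (fderiv ℝ H u (0, w)) w = 0 := by
          have h3 : fderiv ℝ H u (0, w) = 0 := hw
          rw [h3]; rfl
        rw [h2] at h1
        have h4 : ‖w‖ ^ 2 ≤ 0 := by
          by_contra hcon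
          push Not at hcon
          have : 0 < 2 * σ * ‖w‖ ^ 2 := by positivity
          linarith
        have h5 : ‖w‖ = 0 := by nlinarith [norm_nonneg w]
        exact norm_eq_zero.1 h5
      refine ⟨(LinearMap.linearEquivOfInjective _ hinj hfr).toContinuousLinearEquiv, ?_⟩
      ext w
      rfl
    have hHC : ContDiffAt ℝ ((⊤ : ℕ∞) : WithTop ℕ∞) H u := hH.contDiffAt
    set ψ := hHC.implicitFunction (by simp) hinv with hψ
    have hψC : ContDiffAt ℝ ((⊤ : ℕ∞) : WithTop ℕ∞) ψ x0 :=
      hHC.contDiffAt_implicitFunction (by simp) hinv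
    have hev : ∀ᶠ x in 𝓝 x0, H (x, ψ x) = 0 := by
      have h1 := hHC.eventually_apply_implicitFunction (by simp) hinv
      rw [hH0] at h1
      exact h1
    have heq : (fun x => G (x, cm x)) =ᶠ[𝓝 x0] fun x => G (x, ψ x) := by
      filter_upwards [hev] with x hx
      refine le_antisymm (hcm x _) ?_
      refine partial_min_crit hGc x (ψ x) (hGd _) (fun w => ?_) (cm x)
      have h1 : H (x, ψ x) w = 0 := by rw [hx]; rfl
      exact h1
    refine ContDiffAt.congr_of_eventuallyEq ?_ heq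
    exact ContDiffAt.comp (g := G) (f := fun x => ((x, ψ x) : X × C)) x0 hG.contDiffAt
      (contDiffAt_id.prodMk hψC)
  · refine ⟨convex_univ, fun x _ y _ a b ha hb hab => ?_⟩
    have h1 := hGc.2 (mem_univ (x, cm x)) (mem_univ (y, cm y)) ha hb hab
    refine le_trans ?_ h1
    exact hcm (a • x + b • y) (a • cm x + b • cm y)
  · intro x c
    exact hcm x c
  · intro x
    exact ⟨cm x, rfl⟩

theorem partial_min {X : Type*} [NormedAddCommGroup X] [NormedSpace ℝ X] [CompleteSpace X]
    {k : ℕ} (Φ : X × EuclideanSpace ℝ (Fin k) → ℝ) (hΦ : ContDiff ℝ ((⊤ : ℕ∞) : WithTop ℕ∞) Φ)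
    (hconv : ConvexOn ℝ univ Φ) (hnn : ∀ z, 0 ≤ Φ z) {σ : ℝ} (hσ : 0 < σ) :
    ∃ D : X → ℝ, ContDiff ℝ ((⊤ : ℕ∞) : WithTop ℕ∞) D ∧ ConvexOn ℝ univ D ∧
      (∀ x c, D x ≤ Φ (x, c) + σ * ‖c‖ ^ 2) ∧ (∀ x, ∃ c, D x = Φ (x, c) + σ * ‖c‖ ^ 2) := by
  exact partial_min_gen Φ hΦ hconv hnn hσ

end Pool.Agent.Helper912.SA
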