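import Pool.Agent.Helper912.SA.Hh
import Pool.Agent.Helper912.SA.PMin

set_option autoImplicit false

namespace Pool.Agent.Helper912.SA

open Set Filter Topology Cardinal



theorem exists_dist_aux_smooth {X : Type*} [NormedAddCommGroup X] [NormedSpace ℝ X]
    (N : Seminorm ℝ X) (hN : EqN N) (hS : SmN N) {θ : ℝ} (hθ : 0 < θ) :
    ContDiff ℝ ((⊤ : ℕ∞) : WithTop ℕ∞) (fun y => ps θ (N y)) := by
  rw [contDiff_iff_contDiffAt]
  intro y
  by_cases hy : y = 0
  · subst hy
    obtain ⟨c, hc, C, hC⟩ := hN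
    have h1 : (fun y => ps θ (N y)) =ᶠ[𝓝 (0 : X)] fun _ => 0 := by
      have h2 : Metric.ball (0 : X) (θ / (|C| + 1)) ∈ 𝓝 (0 : X) :=
        Metric.ball_mem_nhds _ (by positivity)
      filter_upwards [h2] with y hy
      rw [mem_ball_zero_iff, lt_div_iff₀ (by positivity)] at hy
      apply ps_zero hθ
      have h3 := (hC y).2
      have h4 : C * ‖y‖ ≤ |C| * ‖y‖ := mul_le_mul_of_nonneg_right (le_abs_self C) (norm_nonneg y)
      nlinarith [norm_nonneg y]
    exact contDiffAt_const.congr_of_eventuallyEq h1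
  · exact (ps_contDiff θ).contDiffAt.comp y (hS y hy)

theorem exists_dist_aux_norm {k : ℕ} (c : EuclideanSpace ℝ (Fin k)) :
    ‖c‖ ^ 2 = ∑ i, c i ^ 2 := by
  rw [EuclideanSpace.norm_sq_eq]
  apply Finset.sum_congr rfl
  intro i _
  rw [Real.norm_eq_abs, sq_abs]

theorem exists_dist {X : Type*} [NormedAddCommGroup X] [NormedSpace ℝ X] [CompleteSpace X]
    (N : Seminorm ℝ X) (hN : EqN N) (hS : SmN N) {k : ℕ} (v : Fin k → X) {θ σ : ℝ} (hθ : 0 < θ)
    (hσ : 0 < σ) :
    ∃ D : X → ℝ, ContDiff ℝ ((⊤ : ℕ∞) : WithTop ℕ∞) D ∧ ConvexOn ℝ univ D ∧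
      (∀ x, D (-x) = D x) ∧ (∀ x, 0 ≤ D x) ∧
      (∀ x (c : Fin k → ℝ), D x ≤ N (x - ∑ i, c i • v i) + σ * ∑ i, c i ^ 2) ∧
      (∀ x, ∃ c : Fin k → ℝ, N (x - ∑ i, c i • v i) ≤ D x + 2 * θ ∧ σ * ∑ i, c i ^ 2 ≤ D x) := by
  obtain ⟨D, hD1, hD2, hD3, hD4⟩ := partial_min
    (fun z : X × EuclideanSpace ℝ (Fin k) => ps θ (N (z.1 - ∑ i, z.2 i • v i))) (by
      have h1 : ContDiff ℝ ((⊤ : ℕ∞) : WithTop ℕ∞)
          (fun z : X × EuclideanSpace ℝ (Fin k) => z.1 - ∑ i, z.2 i • v i) := by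
        refine contDiff_fst.sub (ContDiff.sum fun i _ => ContDiff.smul ?_ contDiff_const)
        exact (EuclideanSpace.proj i : EuclideanSpace ℝ (Fin k) →L[ℝ] ℝ).contDiff.comp contDiff_snd
      exact (exists_dist_aux_smooth N hN hS hθ).comp h1) (by
      refine ⟨convex_univ, ?_⟩
      intro z _ w _ a b ha hb hab
      have h1 : (a • z + b • w).1 - ∑ i, (a • z + b • w).2 i • v i =
          a • (z.1 - ∑ i, z.2 i • v i) + b • (w.1 - ∑ i, w.2 i • v i) := by
        have h2 : ∑ i, (a • z + b • w).2 i • v i =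
            a • ∑ i, z.2 i • v i + b • ∑ i, w.2 i • v i := by
          rw [Finset.smul_sum, Finset.smul_sum, ← Finset.sum_add_distrib]
          apply Finset.sum_congr rfl
          intro i _
          have h3 : (a • z + b • w).2 i = a * z.2 i + b * w.2 i := rfl
          rw [h3, add_smul, mul_smul, mul_smul]
        have h4 : (a • z + b • w).1 = a • z.1 + b • w.1 := rfl
        rw [h2, h4, smul_sub, smul_sub]
        abel
      have h5 : N (a • (z.1 - ∑ i, z.2 i • v i) + b • (w.1 - ∑ i, w.2 i • v i)) ≤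
          a * N (z.1 - ∑ i, z.2 i • v i) + b * N (w.1 - ∑ i, w.2 i • v i) := by
        refine (map_add_le_add N _ _).trans ?_
        rw [map_smul_eq_mul, map_smul_eq_mul, Real.norm_of_nonneg ha, Real.norm_of_nonneg hb]
      simp only [h1]
      refine (ps_mono hθ h5).trans ?_
      exact (ps_convex hθ).2 (mem_univ _) (mem_univ _) ha hb hab)
    (fun z => ps_nonneg hθ _) hσ
  have hneg : ∀ x, D (-x) ≤ D x := by
    intro x
    obtain ⟨c, hc⟩ := hD4 x
    have h1 := hD3 (-x) (-c)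
    have h2 : (-x - ∑ i, (-c) i • v i) = -(x - ∑ i, c i • v i) := by
      have h3 : ∑ i, (-c) i • v i = -∑ i, c i • v i := by
        rw [← Finset.sum_neg_distrib]
        apply Finset.sum_congr rfl
        intro i _
        have h4 : (-c) i = -(c i) := rfl
        rw [h4, neg_smul]
      rw [h3]; abel
    simp only at h1 hc
    rw [h2, map_neg_eq_map, norm_neg, ← hc] at h1
    exact h1
  refine ⟨D, hD1, hD2, ?_, ?_, ?_, ?_⟩
  · intro x
    apply le_antisymm (hneg x)
    have := hneg (-x)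
    rwa [neg_neg] at this
  · intro x
    obtain ⟨c, hc⟩ := hD4 x
    rw [hc]
    have := ps_nonneg hθ (N (x - ∑ i, c i • v i))
    positivity
  · intro x c
    have h1 := hD3 x (WithLp.toLp 2 c)
    rw [exists_dist_aux_norm] at h1
    refine h1.trans ?_
    have h2 := ps_le hθ (apply_nonneg N (x - ∑ i, c i • v i))
    have h3 : ∀ i, (WithLp.toLp 2 c : EuclideanSpace ℝ (Fin k)) i = c i := fun i => rfl
    simp only [h3]
    linarith
  · intro x
    obtain ⟨c, hc⟩ := hD4 x
    refine ⟨fun i => c i, ?_, ?_⟩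
    · have h1 := ps_ge hθ (N (x - ∑ i, c i • v i))
      have h2 : 0 ≤ σ * ‖c‖ ^ 2 := by positivity
      simp only at hc
      linarith
    · have h1 := ps_nonneg hθ (N (x - ∑ i, c i • v i))
      rw [exists_dist_aux_norm] at hc
      simp only at hc
      linarith

end Pool.Agent.Helper912.SA
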