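import Pool.Agent.Helper912.SA.Defs

set_option autoImplicit false

namespace Pool.Agent.Helper912.SA

open Set Filter Topology Cardinal



theorem hh_contDiff : ContDiff ℝ ((⊤ : ℕ∞) : WithTop ℕ∞) hh :=
  contDiff_id.mul expNegInvGlue.contDiff

theorem hh_zero {x : ℝ} (hx : x ≤ 0) : hh x = 0 := by
  unfold hh
  rw [expNegInvGlue.zero_of_nonpos hx, mul_zero]

theorem hh_pos {x : ℝ} (hx : 0 < x) : 0 < hh x := mul_pos hx (expNegInvGlue.pos_of_pos hx)

theorem hh_nonneg (x : ℝ) : 0 ≤ hh x := by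
  rcases le_or_gt x 0 with hx | hx
  · rw [hh_zero hx]
  · exact (hh_pos hx).le

theorem hh_eq {x : ℝ} (hx : 0 < x) : hh x = x * Real.exp (-x⁻¹) := by
  unfold hh expNegInvGlue
  rw [if_neg (not_le.2 hx)]

theorem hh_diff : Differentiable ℝ hh := hh_contDiff.differentiable (by simp)

theorem hh_deriv_pos {x : ℝ} (hx : 0 < x) : deriv hh x = Real.exp (-x⁻¹) * (1 + x⁻¹) := by
  have h1 : hh =ᶠ[𝓝 x] fun y => y * Real.exp (-y⁻¹) := by
    filter_upwards [Ioi_mem_nhds hx] with y hy using hh_eq hy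
  rw [h1.deriv_eq]
  have h2 : HasDerivAt (fun y : ℝ => -y⁻¹) (-(-(x ^ 2)⁻¹)) x := (hasDerivAt_inv hx.ne').neg
  have h3 := (hasDerivAt_id x).mul h2.exp
  have h4 : HasDerivAt (fun y => y * Real.exp (-y⁻¹))
    (1 * Real.exp (-x⁻¹) + x * (Real.exp (-x⁻¹) * (-(-(x ^ 2)⁻¹)))) x := h3
  rw [h4.deriv]
  field_simp

theorem hh_deriv_nonpos {x : ℝ} (hx : x ≤ 0) : deriv hh x = 0 := by
  rcases lt_or_eq_of_le hx with h | h
  · have h1 : hh =ᶠ[𝓝 x] fun _ => 0 := by
      filter_upwards [Iio_mem_nhds h] with y hy using hh_zero (le_of_lt hy)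
    rw [h1.deriv_eq, deriv_const]
  · subst h
    have h2 : DifferentiableAt ℝ expNegInvGlue 0 :=
      (expNegInvGlue.contDiff (n := 1)).differentiable (by simp) 0
    have h3 := (hasDerivAt_id (0 : ℝ)).mul h2.hasDerivAt
    have h4 : HasDerivAt hh (1 * expNegInvGlue 0 + 0 * deriv expNegInvGlue 0) 0 := h3
    rw [h4.deriv, expNegInvGlue.zero_of_nonpos le_rfl]
    ring

theorem hh_deriv_nonneg (x : ℝ) : 0 ≤ deriv hh x := by
  rcases le_or_gt x 0 with hx | hx
  · rw [hh_deriv_nonpos hx]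
  · rw [hh_deriv_pos hx]
    positivity

theorem hh_deriv_mono : Monotone (deriv hh) := by
  intro x y hxy
  rcases le_or_gt x 0 with hx | hx
  · rw [hh_deriv_nonpos hx]
    exact hh_deriv_nonneg y
  · have hy : 0 < y := lt_of_lt_of_le hx hxy
    rw [hh_deriv_pos hx, hh_deriv_pos hy]
    have hst : y⁻¹ ≤ x⁻¹ := inv_anti₀ hx hxy
    have ht : 0 < y⁻¹ := inv_pos.2 hy
    generalize x⁻¹ = s at hst ⊢
    generalize y⁻¹ = t at hst ht ⊢
    have h1 : 1 + (s - t) ≤ Real.exp (s - t) := by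
      have := Real.add_one_le_exp (s - t)
      linarith
    have h2 : 1 + s ≤ Real.exp (s - t) * (1 + t) := by
      nlinarith [mul_nonneg ht.le (sub_nonneg.2 hst)]
    have h3 : Real.exp (-t) = Real.exp (-s) * Real.exp (s - t) := by
      rw [← Real.exp_add]
      congr 1
      ring
    rw [h3, mul_assoc]
    exact mul_le_mul_of_nonneg_left h2 (Real.exp_pos _).le

theorem hh_convex : ConvexOn ℝ univ hh :=
  hh_deriv_mono.convexOn_univ_of_deriv hh_diff

theorem hh_mono : Monotone hh := monotone_of_deriv_nonneg hh_diff hh_deriv_nonneg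

theorem hh_le {x : ℝ} (hx : 0 ≤ x) : hh x ≤ x := by
  rcases eq_or_lt_of_le hx with h | h
  · rw [← h, hh_zero le_rfl]
  · rw [hh_eq h]
    have h1 : Real.exp (-x⁻¹) ≤ 1 := by
      rw [Real.exp_le_one_iff]
      have := inv_pos.2 h
      linarith
    nlinarith

theorem hh_ge (x : ℝ) : x - 1 ≤ hh x := by
  rcases le_or_gt x 0 with hx | hx
  · rw [hh_zero hx]
    linarith
  · rw [hh_eq hx]
    have h1 := Real.add_one_le_exp (-x⁻¹)
    have h2 : x * x⁻¹ = 1 := mul_inv_cancel₀ hx.ne'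
    nlinarith

/-- smooth replacement of the positive part -/
noncomputable def ps (θ t : ℝ) : ℝ := θ * hh (t / θ - 1)

theorem ps_contDiff (θ : ℝ) : ContDiff ℝ ((⊤ : ℕ∞) : WithTop ℕ∞) (ps θ) := by
  have h1 : ContDiff ℝ ((⊤ : ℕ∞) : WithTop ℕ∞) (fun t : ℝ => t / θ - 1) :=
    (contDiff_id.div_const θ).sub contDiff_const
  exact contDiff_const.mul (hh_contDiff.comp h1)

theorem ps_convex {θ : ℝ} (hθ : 0 < θ) : ConvexOn ℝ univ (ps θ) := by
  refine ⟨convex_univ, fun x _ y _ a b ha hb hab => ?_⟩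
  have h1 := hh_convex.2 (mem_univ (x / θ - 1)) (mem_univ (y / θ - 1)) ha hb hab
  simp only [smul_eq_mul] at h1 ⊢
  have h2 : (a * x + b * y) / θ - 1 = a * (x / θ - 1) + b * (y / θ - 1) := by
    have : b = 1 - a := by linarith
    subst this
    field_simp
    ring
  unfold ps
  rw [h2]
  nlinarith [mul_le_mul_of_nonneg_left h1 hθ.le]

theorem ps_mono {θ : ℝ} (hθ : 0 < θ) : Monotone (ps θ) := by
  intro x y hxy
  unfold ps
  refine mul_le_mul_of_nonneg_left (hh_mono ?_) hθ.le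
  have := div_le_div_of_nonneg_right hxy hθ.le
  linarith

theorem ps_zero {θ t : ℝ} (hθ : 0 < θ) (ht : t ≤ θ) : ps θ t = 0 := by
  unfold ps
  rw [hh_zero, mul_zero]
  have : t / θ ≤ 1 := (div_le_one hθ).2 ht
  linarith

theorem ps_nonneg {θ : ℝ} (hθ : 0 < θ) (t : ℝ) : 0 ≤ ps θ t := mul_nonneg hθ.le (hh_nonneg _)

theorem ps_le {θ t : ℝ} (hθ : 0 < θ) (ht : 0 ≤ t) : ps θ t ≤ t := by
  rcases le_or_gt t θ with h | h
  · rw [ps_zero hθ h]
    exact ht
  · unfold ps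
    have h1 : 0 ≤ t / θ - 1 := by
      rw [sub_nonneg, le_div_iff₀ hθ]
      linarith
    have h2 := mul_le_mul_of_nonneg_left (hh_le h1) hθ.le
    have h3 : θ * (t / θ - 1) = t - θ := by field_simp
    linarith

theorem ps_ge {θ : ℝ} (hθ : 0 < θ) (t : ℝ) : t - 2 * θ ≤ ps θ t := by
  unfold ps
  have h2 := mul_le_mul_of_nonneg_left (hh_ge (t / θ - 1)) hθ.le
  have h3 : θ * (t / θ - 1 - 1) = t - 2 * θ := by
    field_simp
    ring
  linarith

end Pool.Agent.Helper912.SA
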