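import Pool.Agent.Helper912.SA.Defs

set_option autoImplicit false

namespace Pool.Agent.Helper912.SA

open Set Filter Topology Cardinal



theorem finite_net {X : Type*} [NormedAddCommGroup X] [NormedSpace ℝ X]
    (p : Seminorm ℝ X) (hp : EqN p) (d : X →L[ℝ] ℝ) (η : ℝ) {k : ℕ} (v : Fin k → X)
    {ρ : ℝ} (hρ : 0 < ρ) :
    ∃ t : Finset (X →L[ℝ] ℝ), (∀ y ∈ t, (∀ x, |y x| ≤ p x) ∧ ‖y - d‖ < η) ∧
      ∀ y : X →L[ℝ] ℝ, (∀ x, |y x| ≤ p x) → ‖y - d‖ < η → ∃ y' ∈ t, ∀ i, |y (v i) - y' (v i)| < ρ := by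
  classical
  obtain ⟨S, hS⟩ : ∃ S : Set (X →L[ℝ] ℝ), S = {y | (∀ x, |y x| ≤ p x) ∧ ‖y - d‖ < η} := ⟨_, rfl⟩
  have hmem : ∀ y, y ∈ S ↔ (∀ x, |y x| ≤ p x) ∧ ‖y - d‖ < η := by
    intro y
    rw [hS]
    rfl
  obtain ⟨T, hT⟩ : ∃ T : (X →L[ℝ] ℝ) → (Fin k → ℝ), ∀ y i, T y i = y (v i) :=
    ⟨fun y i => y (v i), fun _ _ => rfl⟩
  have htb : TotallyBounded (T '' S) := by
    have h1 : IsCompact (Set.Icc (fun i => -p (v i)) (fun i => p (v i))) := isCompact_Icc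
    refine h1.totallyBounded.subset ?_
    rintro _ ⟨y, hy, rfl⟩
    have hy' := ((hmem y).mp hy).1
    refine ⟨fun i => ?_, fun i => ?_⟩
    · rw [hT]
      exact (abs_le.mp (hy' (v i))).1
    · rw [hT]
      exact (abs_le.mp (hy' (v i))).2
  obtain ⟨t0, ht0, hfin, hcov⟩ := Metric.finite_approx_of_totallyBounded htb ρ hρ
  have hch : ∀ u ∈ t0, ∃ y, y ∈ S ∧ T y = u := by
    intro u hu
    obtain ⟨y, hy, h⟩ := ht0 hu
    exact ⟨y, hy, h⟩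
  choose! f hf using hch
  refine ⟨hfin.toFinset.image f, ?_, ?_⟩
  · intro y hy
    rw [Finset.mem_image] at hy
    obtain ⟨u, hu, rfl⟩ := hy
    rw [Set.Finite.mem_toFinset] at hu
    exact (hmem _).mp (hf u hu).1
  · intro y hy1 hy2
    have h1 : T y ∈ T '' S := ⟨y, (hmem y).mpr ⟨hy1, hy2⟩, rfl⟩
    have h2 := hcov h1
    simp only [Set.mem_iUnion, Metric.mem_ball, exists_prop] at h2
    obtain ⟨u, hu, hd⟩ := h2
    refine ⟨f u, Finset.mem_image_of_mem f (hfin.mem_toFinset.mpr hu), ?_⟩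
    intro i
    have h3 := dist_le_pi_dist (T y) u i
    rw [← (hf u hu).2, hT, hT, Real.dist_eq] at h3
    rw [(hf u hu).2] at h3
    linarith

end Pool.Agent.Helper912.SA
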