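import Pool.Agent.Helper912.SA.Defs

set_option autoImplicit false

namespace Pool.Agent.Helper912.SA

open Set Filter Topology Cardinal

/-- A monotone continuous system of projections, contractive for `p` and for `q`. -/
structure PSys {X : Type*} [NormedAddCommGroup X] [NormedSpace ℝ X] (p q : Seminorm ℝ X) where
  P : Set X → X →L[ℝ] X
  le₁ : ∀ S x, p (P S x) ≤ p x
  le₂ : ∀ S x, q (P S x) ≤ q x
  up : ∀ {S S' : Set X}, S ⊆ S' → ∀ x, P S' (P S x) = P S x
  down : ∀ {S S' : Set X}, S ⊆ S' → ∀ x, P S (P S' x) = P S x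
  fix : ∀ {S : Set X}, ∀ x ∈ S, P S x = x
  rng : ∀ S : Set X, ∃ A : Set X, #A ≤ max #S ℵ₀ ∧ ∀ x, P S x ∈ closure A
  chain : ∀ c : Set (Set X), c.Nonempty → DirectedOn (· ⊆ ·) c → ∀ x,
    P (⋃₀ c) x ∈ closure (⋃ S ∈ c, range (P S))

end Pool.Agent.Helper912.SA
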