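import Pool.Agent.Helper912.SA.Defs

set_option autoImplicit false

namespace Pool.Agent.Helper912.SA

open Set Filter Topology Cardinal

/-- the range of a projection -/
def rg {X : Type*} [NormedAddCommGroup X] [NormedSpace ℝ X] (Q : X →L[ℝ] X) : Submodule ℝ X :=
  LinearMap.eqLocus (Q : X →ₗ[ℝ] X) LinearMap.id

end Pool.Agent.Helper912.SA
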