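import Pool.Agent.Helper912.SA.Crit

set_option autoImplicit false

namespace Pool.Agent.Helper912.SA

open Set Filter Topology Cardinal



theorem sep_dual {X : Type*} [NormedAddCommGroup X] [NormedSpace ℝ X] [CompleteSpace X]
    [TopologicalSpace.SeparableSpace X]
    (N : Seminorm ℝ X) (hN : EqN N) (hS : SmN N) :
    TopologicalSpace.SeparableSpace (X →L[ℝ] ℝ) := by
  have hc : Continuous (fderiv ℝ (fun x => N x ^ 2)) :=
    (sq_contDiff_one N hN hS).continuous_fderiv one_ne_zero
  have hd : DenseRange (fderiv ℝ (fun x => N x ^ 2)) := by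
    rw [Metric.denseRange_iff]
    intro y r hr
    obtain ⟨z, hz⟩ := exists_crit N hN hS y (half_pos hr)
    refine ⟨z, ?_⟩
    rw [dist_comm, dist_eq_norm]
    exact lt_of_le_of_lt hz (half_lt_self hr)
  exact hd.separableSpace hc

end Pool.Agent.Helper912.SA
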