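import Pool.Agent.Helper912.SA.Hh
import Pool.Agent.Helper912.SA.Gauge
import Pool.Agent.Helper912.SA.Dist
import Pool.Agent.Helper912.SA.SepDual
import Pool.Agent.Helper912.SA.Norming
import Pool.Agent.Helper912.SA.Net

set_option autoImplicit false

namespace Pool.Agent.Helper912.SA

open Set Filter Topology Cardinal



theorem hhc_12824 {X : Type*} [NormedAddCommGroup X] [NormedSpace ℝ X] (G : X → ℝ)
    (hG : ConvexOn ℝ univ G) (a : ℝ) : ConvexOn ℝ univ (fun x => hh (G x - a)) := by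
  refine ⟨convex_univ, fun x _ y _ s t hs ht hst => ?_⟩
  have h1 := hG.2 (mem_univ x) (mem_univ y) hs ht hst
  simp only [smul_eq_mul] at h1 ⊢
  have h2 : G (s • x + t • y) - a ≤ s * (G x - a) + t * (G y - a) := by
    have : s * (G x - a) + t * (G y - a) = s * G x + t * G y - (s + t) * a := by ring
    rw [this, hst]
    linarith
  refine (hh_mono h2).trans ?_
  have h3 := hh_convex.2 (mem_univ (G x - a)) (mem_univ (G y - a)) hs ht hst
  simpa only [smul_eq_mul] using h3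

theorem neg_12824 {X : Type*} [NormedAddCommGroup X] [NormedSpace ℝ X] (G : X → ℝ)
    (hG : ConvexOn ℝ univ G) : ConvexOn ℝ univ (fun x => G (-x)) := by
  refine ⟨convex_univ, fun x _ y _ s t hs ht hst => ?_⟩
  have h1 := hG.2 (mem_univ (-x)) (mem_univ (-y)) hs ht hst
  have h2 : -(s • x + t • y) = s • (-x) + t • (-y) := by
    rw [smul_neg, smul_neg, neg_add]
  simp only
  rw [h2]
  exact h1

theorem key_12824 {X : Type*} [NormedAddCommGroup X] [NormedSpace ℝ X] (N : Seminorm ℝ X)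
    (y0 y : X →L[ℝ] ℝ) (c C η τ u : ℝ) (hc : 0 < c) (hC : 1 ≤ C) (hτ : 0 < τ)
    (hη : η = τ * c / 8) (hN : ∀ x, c * ‖x‖ ≤ N x) (hyy : ‖y0 - y‖ ≤ 2 * η) (x : X) (k : ℕ)
    (z : Fin k → X) (cc : Fin k → ℝ) (D : ℝ) (hD0 : 0 ≤ D) (hDC : D ≤ C)
    (hu : 0 < u)
    (hz : ∀ i, |y0 (z i) - y (z i)| < u / (C * ((k : ℝ) + 1)))
    (h1 : N (x - ∑ i, cc i • z i) ≤ D + 2 * u) (h2 : 1 / ((k : ℝ) + 1) * ∑ i, cc i ^ 2 ≤ D) :
    |y0 x - y x| ≤ τ / 4 * (D + 2 * u) + u := by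
  have hk : (0 : ℝ) < (k : ℝ) + 1 := by positivity
  have hC0 : 0 < C := by linarith
  set v := x - ∑ i, cc i • z i with hv
  have e1 : y0 x - y x = (y0 - y) v + ∑ i, cc i * (y0 (z i) - y (z i)) := by
    have : x = v + ∑ i, cc i • z i := by rw [hv]; abel
    have e2 : (y0 - y) x = (y0 - y) v + (y0 - y) (∑ i, cc i • z i) := by
      rw [← map_add]
      congr 1
    rw [map_sum] at e2
    simp only [map_smul, smul_eq_mul, ContinuousLinearMap.sub_apply] at e2 ⊢
    exact e2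
  rw [e1]
  refine (abs_add_le _ _).trans (add_le_add ?_ ?_)
  · have g1 : |(y0 - y) v| ≤ ‖y0 - y‖ * ‖v‖ := (y0 - y).le_opNorm v
    have g2 : ‖y0 - y‖ * ‖v‖ ≤ 2 * η * ‖v‖ := mul_le_mul_of_nonneg_right hyy (norm_nonneg _)
    have g3 : 2 * η * ‖v‖ = τ / 4 * (c * ‖v‖) := by rw [hη]; ring
    have g4 : τ / 4 * (c * ‖v‖) ≤ τ / 4 * (D + 2 * u) :=
      mul_le_mul_of_nonneg_left ((hN v).trans h1) (by positivity)
    linarith
  · have g1 : |∑ i, cc i * (y0 (z i) - y (z i))| ≤ ∑ i, |cc i| * (u / (C * ((k : ℝ) + 1))) := by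
      refine (Finset.abs_sum_le_sum_abs _ _).trans (Finset.sum_le_sum fun i _ => ?_)
      rw [abs_mul]
      exact mul_le_mul_of_nonneg_left (hz i).le (abs_nonneg _)
    rw [← Finset.sum_mul] at g1
    have g2 : ∑ i, |cc i| ≤ C * ((k : ℝ) + 1) := by
      have g3 : ∑ i, |cc i| ≤ ∑ i : Fin k, (1 + cc i ^ 2) / 2 := by
        apply Finset.sum_le_sum
        intro i _
        have : 0 ≤ (1 - |cc i|) ^ 2 := sq_nonneg _
        have h4 : |cc i| ^ 2 = cc i ^ 2 := sq_abs _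
        nlinarith
      rw [← Finset.sum_div, Finset.sum_add_distrib] at g3
      simp only [Finset.sum_const, Finset.card_univ, Fintype.card_fin, nsmul_eq_mul, mul_one] at g3
      have g4 : ∑ i, cc i ^ 2 ≤ C * ((k : ℝ) + 1) := by
        have g5 : 1 / ((k : ℝ) + 1) * ∑ i, cc i ^ 2 ≤ C := h2.trans hDC
        rw [one_div, inv_mul_le_iff₀ hk] at g5
        linarith
      have g6 : (k : ℝ) ≤ C * ((k : ℝ) + 1) := by nlinarith
      linarith
    have g7 : (∑ i, |cc i|) * (u / (C * ((k : ℝ) + 1))) ≤ C * ((k : ℝ) + 1) * (u / (C * ((k : ℝ) + 1))) :=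
      mul_le_mul_of_nonneg_right g2 (by positivity)
    have g8 : C * ((k : ℝ) + 1) * (u / (C * ((k : ℝ) + 1))) = u := by
      field_simp
    linarith

theorem small_12824 {X : Type*} [NormedAddCommGroup X] [NormedSpace ℝ X] [CompleteSpace X]
    [TopologicalSpace.SeparableSpace X]
    (N : Seminorm ℝ X) (hN : EqN N) (hS : SmN N) (p : Seminorm ℝ X) (hp : EqN p) (δ : ℝ)
    (hδ : 0 < δ) (hδ1 : δ ≤ 1) :
    ∃ q : Seminorm ℝ X, SmN q ∧ ∀ x, p x ≤ q x ∧ q x ≤ (1 + δ) * p x := by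
  classical
  obtain ⟨c, hc, CN, hN1⟩ := id hN
  obtain ⟨cp, hcp, Cp, hp1⟩ := id hp
  obtain ⟨C, hC1, hNp⟩ : ∃ C : ℝ, 1 ≤ C ∧ ∀ x, N x ≤ C * p x := by
    refine ⟨1 + |CN| / cp, le_add_of_nonneg_right (by positivity), fun x => ?_⟩
    have h1 := (hN1 x).2
    have h2 := (hp1 x).1
    calc N x ≤ CN * ‖x‖ := h1
      _ ≤ |CN| * ‖x‖ := mul_le_mul_of_nonneg_right (le_abs_self _) (norm_nonneg _)
      _ ≤ |CN| * (p x / cp) := by
          apply mul_le_mul_of_nonneg_left _ (abs_nonneg _)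
          rw [le_div_iff₀ hcp]
          linarith
      _ = |CN| / cp * p x := by ring
      _ ≤ (1 + |CN| / cp) * p x := by
          have := apply_nonneg p x
          nlinarith
  have hC0 : 0 < C := by linarith
  obtain ⟨τ, hτdef⟩ : ∃ τ : ℝ, τ = δ / (8 * C) := ⟨_, rfl⟩
  have hτ : 0 < τ := by rw [hτdef]; positivity
  have hτC : τ * C = δ / 8 := by rw [hτdef]; field_simp
  have hτ8 : τ ≤ 1 / 8 := by
    have : τ * 1 ≤ τ * C := mul_le_mul_of_nonneg_left hC1 hτ.le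
    linarith
  obtain ⟨η, hη⟩ : ∃ η : ℝ, η = τ * c / 8 := ⟨_, rfl⟩
  have hη0 : 0 < η := by rw [hη]; positivity
  obtain ⟨w, hwdef⟩ : ∃ w : ℕ → ℝ, ∀ k, w k = δ / 8 / ((k : ℝ) + 1) := ⟨_, fun _ => rfl⟩
  obtain ⟨u, hudef⟩ : ∃ u : ℕ → ℝ, ∀ k, u k = w k / 100 := ⟨_, fun _ => rfl⟩
  have hk0 : ∀ k : ℕ, (0 : ℝ) < (k : ℝ) + 1 := fun k => by positivity
  have hw0 : ∀ k, 0 < w k := fun k => by rw [hwdef]; positivity
  have hw8 : ∀ k, w k ≤ δ / 8 := fun k => by
    rw [hwdef]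
    apply div_le_self (by positivity)
    have : (0 : ℝ) ≤ k := by positivity
    linarith
  have hwk : ∀ k, w k ≤ 1 / ((k : ℝ) + 1) := fun k => by
    rw [hwdef]
    exact div_le_div_of_nonneg_right (by linarith) (hk0 k).le
  have hu0 : ∀ k, 0 < u k := fun k => by rw [hudef]; have := hw0 k; positivity
  have hsd := sep_dual N hN hS
  have hz := TopologicalSpace.denseRange_denseSeq X
  have hd := TopologicalSpace.denseRange_denseSeq (X →L[ℝ] ℝ)
  obtain ⟨z, hz⟩ : ∃ z : ℕ → X, DenseRange z := ⟨_, hz⟩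
  obtain ⟨d, hd⟩ : ∃ d : ℕ → (X →L[ℝ] ℝ), DenseRange d := ⟨_, hd⟩
  have hD := fun k : ℕ => exists_dist N hN hS (fun i : Fin k => z i) (hu0 k)
    (show (0 : ℝ) < 1 / ((k : ℝ) + 1) by have := hk0 k; positivity)
  choose D hD1 hD2 hD3 hD4 hD5 hD6 using hD
  have ht := fun k m : ℕ => finite_net p hp (d m) η (fun i : Fin k => z i)
    (show (0 : ℝ) < u k / (C * ((k : ℝ) + 1)) by
      have := hk0 k
      have := hu0 k
      positivity)
  choose T hT1 hT2 using ht
  obtain ⟨t, htdef⟩ : ∃ t : ℕ → Finset (X →L[ℝ] ℝ), ∀ k, t k = (Finset.range (k + 1)).biUnion (T k) :=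
    ⟨_, fun _ => rfl⟩
  have htp : ∀ k, ∀ y ∈ t k, ∀ x, |y x| ≤ p x := by
    intro k y hy x
    rw [htdef, Finset.mem_biUnion] at hy
    obtain ⟨m, _, hm⟩ := hy
    exact (hT1 k m y hm).1 x
  have hDN : ∀ k x, D k x ≤ N x := by
    intro k x
    have := hD5 k x (fun _ => 0)
    simpa using this
  obtain ⟨F, hFdef⟩ : ∃ F : ℕ → (X →L[ℝ] ℝ) → X → ℝ, ∀ k y x, F k y x = (1 + w k) * y x + τ * D k x :=
    ⟨_, fun _ _ _ => rfl⟩
  have hFc : ∀ k y, ContDiff ℝ ((⊤ : ℕ∞) : WithTop ℕ∞) (F k y) := by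
    intro k y
    have e : F k y = fun x => (1 + w k) * y x + τ * D k x := funext fun x => hFdef k y x
    rw [e]
    exact (contDiff_const.mul y.contDiff).add (contDiff_const.mul (hD1 k))
  have hFconv : ∀ k y, ConvexOn ℝ univ (F k y) := by
    intro k y
    refine ⟨convex_univ, fun a _ b _ s r hs hr hsr => ?_⟩
    have h1 := (hD2 k).2 (mem_univ a) (mem_univ b) hs hr hsr
    simp only [smul_eq_mul] at h1 ⊢
    rw [hFdef, hFdef, hFdef, map_add, map_smul, map_smul]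
    simp only [smul_eq_mul]
    have := mul_le_mul_of_nonneg_left h1 hτ.le
    linarith
  have hFle : ∀ k, ∀ y ∈ t k, ∀ x, F k y x ≤ (1 + w k) * p x + τ * D k x := by
    intro k y hy x
    rw [hFdef]
    have h1 : y x ≤ p x := (le_abs_self _).trans (htp k y hy x)
    have h2 := mul_le_mul_of_nonneg_left h1 (show 0 ≤ 1 + w k by have := hw0 k; linarith)
    linarith
  obtain ⟨K, hK0, hK⟩ : ∃ K : ℕ → ℝ, (∀ k, 0 < K k) ∧ ∀ k, K k * hh (u k) = 2 :=
    ⟨fun k => 2 / hh (u k), fun k => div_pos two_pos (hh_pos (hu0 k)), fun k =>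
      div_mul_cancel₀ _ (hh_pos (hu0 k)).ne'⟩
  let f : (Σ k : ℕ, {y // y ∈ t k}) → X → ℝ := fun i x =>
    K i.1 * hh (F i.1 i.2.1 x - (1 + u i.1)) + K i.1 * hh (F i.1 i.2.1 (-x) - (1 + u i.1))
  have hf : ∀ i x, f i x = K i.1 * hh (F i.1 i.2.1 x - (1 + u i.1)) +
    K i.1 * hh (F i.1 i.2.1 (-x) - (1 + u i.1)) := fun _ _ => rfl
  have hfs : ∀ i, ContDiff ℝ ((⊤ : ℕ∞) : WithTop ℕ∞) (f i) := by
    intro i
    have h1 := hFc i.1 i.2.1
    have h2 : ContDiff ℝ ((⊤ : ℕ∞) : WithTop ℕ∞) (fun x => F i.1 i.2.1 (-x)) :=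
      h1.comp contDiff_neg
    exact (contDiff_const.mul (hh_contDiff.comp (h1.sub contDiff_const))).add
      (contDiff_const.mul (hh_contDiff.comp (h2.sub contDiff_const)))
  have hfconv : ∀ i, ConvexOn ℝ univ (f i) := by
    intro i
    have h1 := (hhc_12824 _ (hFconv i.1 i.2.1) (1 + u i.1)).smul (hK0 i.1).le
    have h2 := (hhc_12824 _ (neg_12824 _ (hFconv i.1 i.2.1)) (1 + u i.1)).smul (hK0 i.1).le
    exact h1.add h2
  have hfeven : ∀ i x, f i (-x) = f i x := by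
    intro i x
    rw [hf, hf, neg_neg, add_comm]
  have hfnn : ∀ i x, 0 ≤ f i x := by
    intro i x
    rw [hf]
    have := hK0 i.1
    have := hh_nonneg (F i.1 i.2.1 x - (1 + u i.1))
    have := hh_nonneg (F i.1 i.2.1 (-x) - (1 + u i.1))
    positivity
  -- a point with small bound
  have hfz : ∀ (i : Σ k : ℕ, {y // y ∈ t k}) x, (1 + w i.1) * p x + τ * D i.1 x ≤ 1 → f i x = 0 := by
    intro i x hx
    have h1 := hFle i.1 i.2.1 i.2.2 x
    have h2 := hFle i.1 i.2.1 i.2.2 (-x)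
    rw [map_neg_eq_map, hD3] at h2
    have := hu0 i.1
    rw [hf, hh_zero (by linarith), hh_zero (by linarith)]
    ring
  have h1 : ∀ x, p x ≤ 1 - δ / 2 → ∀ i, f i x = 0 := by
    intro x hx i
    apply hfz
    have g1 := hDN i.1 x
    have g2 := hNp x
    have g3 := apply_nonneg p x
    have g4 := hw8 i.1
    have g5 := hw0 i.1
    have g6 : τ * D i.1 x ≤ δ / 8 * p x := by
      calc τ * D i.1 x ≤ τ * (C * p x) := mul_le_mul_of_nonneg_left (g1.trans g2) hτ.le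
        _ = δ / 8 * p x := by rw [← mul_assoc, hτC]
    have g7 : (1 + w i.1) * p x ≤ (1 + δ / 8) * p x := by nlinarith
    have g8 : (1 + δ / 8) * p x + δ / 8 * p x ≤ (1 + δ / 4) * (1 - δ / 2) := by nlinarith
    nlinarith
  have hB : ∀ x, (∀ s : Finset (Σ k : ℕ, {y // y ∈ t k}), ∑ i ∈ s, f i x ≤ 1) → p x < 1 := by
    intro x hx
    by_contra hcon
    push Not at hcon
    have hpx : 0 < p x := by linarith
    have hlam1 : (p x)⁻¹ ≤ 1 := inv_le_one_of_one_le₀ hcon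
    have hlam0 : 0 < (p x)⁻¹ := inv_pos.mpr hpx
    obtain ⟨x1, hx1⟩ : ∃ x1 : X, x1 = (p x)⁻¹ • x := ⟨_, rfl⟩
    have hpx1 : p x1 = 1 := by
      rw [hx1, map_smul_eq_mul, Real.norm_eq_abs, abs_of_pos hlam0]
      exact inv_mul_cancel₀ hpx.ne'
    have hfx1 : ∀ i, f i x1 ≤ 1 := by
      intro i
      have g1 := (hfconv i).2 (mem_univ x) (mem_univ 0) hlam0.le (sub_nonneg.mpr hlam1) (by ring)
      have g2 : f i 0 = 0 := h1 0 (by rw [map_zero]; linarith) i
      rw [smul_zero, add_zero, g2, ← hx1] at g1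
      simp only [smul_eq_mul, mul_zero, add_zero] at g1
      have g3 : f i x ≤ 1 := by simpa using hx {i}
      have g4 := hfnn i x
      nlinarith
    obtain ⟨y0, hy0, hy0'⟩ := exists_norming p hp x1
    obtain ⟨m, hm⟩ := hd.exists_dist_lt y0 hη0
    rw [dist_eq_norm] at hm
    obtain ⟨y, hy, hyρ⟩ := hT2 m m y0 hy0 hm
    have hyt : y ∈ t m := by
      rw [htdef, Finset.mem_biUnion]
      exact ⟨m, Finset.mem_range.mpr (Nat.lt_succ_self m), hy⟩
    have hym := (hT1 m m y hy).2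
    obtain ⟨cc, hcc1, hcc2⟩ := hD6 m x1
    have hyy : ‖y0 - y‖ ≤ 2 * η := by
      have : y0 - y = (y0 - d m) - (y - d m) := by abel
      rw [this]
      refine (norm_sub_le _ _).trans ?_
      linarith
    have hD1' : D m x1 ≤ C := by
      have := (hDN m x1).trans (hNp x1)
      rwa [hpx1, mul_one] at this
    have hkey := key_12824 N y0 y c C η τ (u m) hc hC1 hτ hη (fun x => (hN1 x).1) hyy x1 m
      (fun i => z i) cc (D m x1) (hD4 m x1) hD1' (hu0 m) hyρ hcc1 hcc2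
    rw [hy0', hpx1] at hkey
    have hyx := (abs_le.mp hkey).2
    have hlow : u m ≤ F m y x1 - (1 + u m) := by
      rw [hFdef]
      have a1 := hw0 m
      have a2 := hw8 m
      have a3 := hu0 m
      have a4 : w m = 100 * u m := by rw [hudef]; ring
      have a5 := hD4 m x1
      have b1 : 1 - (τ / 4 * (D m x1 + 2 * u m) + u m) ≤ y x1 := by linarith
      have b2 : (1 + w m) * (1 - (τ / 4 * (D m x1 + 2 * u m) + u m)) ≤ (1 + w m) * y x1 :=
        mul_le_mul_of_nonneg_left b1 (by linarith)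
      have b3 : (1 + w m) * (τ / 4 * (D m x1 + 2 * u m) + u m) ≤ τ * D m x1 + 2 * u m := by
        have c1 : (1 + w m) * (τ / 4 * (D m x1 + 2 * u m) + u m) ≤
            (9 / 8) * (τ / 4 * (D m x1 + 2 * u m) + u m) :=
          mul_le_mul_of_nonneg_right (by linarith) (by positivity)
        have c2 : τ * u m ≤ 1 / 8 * u m := mul_le_mul_of_nonneg_right hτ8 a3.le
        have c3 : 0 ≤ τ * D m x1 := by positivity
        nlinarith
      nlinarith
    have hbig : 2 ≤ f ⟨m, ⟨y, hyt⟩⟩ x1 := by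
      rw [hf]
      have g1 : K m * hh (u m) ≤ K m * hh (F m y x1 - (1 + u m)) :=
        mul_le_mul_of_nonneg_left (hh_mono hlow) (hK0 m).le
      have g2 : 0 ≤ K m * hh (F m y (-x1) - (1 + u m)) := mul_nonneg (hK0 m).le (hh_nonneg _)
      rw [hK] at g1
      simp only
      linarith
    have := hfx1 ⟨m, ⟨y, hyt⟩⟩
    linarith
  have h3 : ∀ x, (∀ s : Finset (Σ k : ℕ, {y // y ∈ t k}), ∑ i ∈ s, f i x ≤ 1) →
      ∃ U ∈ 𝓝 x, ∃ s : Finset (Σ k : ℕ, {y // y ∈ t k}),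
      (∀ i ∉ s, ∀ y ∈ U, f i y = 0) ∧
      ∀ i ∈ s, ContDiffAt ℝ ((⊤ : ℕ∞) : WithTop ℕ∞) (f i) x := by
    intro x hx
    have hpx := hB x hx
    obtain ⟨g, hg⟩ : ∃ g : ℝ, g = 1 - p x := ⟨_, rfl⟩
    have hg0 : 0 < g := by linarith
    have hg1 : g ≤ 1 := by
      have := apply_nonneg p x
      linarith
    have hb : 0 < 1 + |CN| + |Cp| := by positivity
    obtain ⟨ρ, hρ⟩ : ∃ ρ : ℝ, ρ = g / 8 / (1 + |CN| + |Cp|) := ⟨_, rfl⟩
    have hρ0 : 0 < ρ := by rw [hρ]; positivity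
    have hρ1 : ρ * (1 + |CN| + |Cp|) = g / 8 := by rw [hρ]; field_simp
    obtain ⟨m, hm⟩ := hz.exists_dist_lt x hρ0
    obtain ⟨k1, hk1⟩ := exists_nat_gt (16 / g)
    refine ⟨Metric.ball x ρ, Metric.ball_mem_nhds x hρ0,
      (Finset.range (max (m + 1) k1)).sigma (fun k => Finset.univ), ?_, fun i _ => (hfs i).contDiffAt⟩
    intro i hi y hy
    have hik : max (m + 1) k1 ≤ i.1 := by
      by_contra hlt
      push Not at hlt
      exact hi (Finset.mem_sigma.mpr ⟨Finset.mem_range.mpr hlt, Finset.mem_univ _⟩)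
    have hmi : m < i.1 := lt_of_lt_of_le (Nat.lt_succ_self m) ((le_max_left _ _).trans hik)
    have hki : (k1 : ℝ) ≤ i.1 := by exact_mod_cast (le_max_right _ _).trans hik
    have hNb : ∀ v : X, ‖v‖ < ρ → N v ≤ g / 8 ∧ p v ≤ g / 8 := by
      intro v hv
      have e1 := (hN1 v).2
      have e2 := (hp1 v).2
      have e3 := norm_nonneg v
      have e4 := le_abs_self CN
      have e5 := le_abs_self Cp
      have e6 := abs_nonneg CN
      have e7 := abs_nonneg Cp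
      constructor
      · calc N v ≤ CN * ‖v‖ := e1
          _ ≤ (1 + |CN| + |Cp|) * ‖v‖ := mul_le_mul_of_nonneg_right (by linarith) e3
          _ ≤ (1 + |CN| + |Cp|) * ρ := mul_le_mul_of_nonneg_left hv.le hb.le
          _ = g / 8 := by rw [mul_comm]; exact hρ1
      · calc p v ≤ Cp * ‖v‖ := e2
          _ ≤ (1 + |CN| + |Cp|) * ‖v‖ := mul_le_mul_of_nonneg_right (by linarith) e3
          _ ≤ (1 + |CN| + |Cp|) * ρ := mul_le_mul_of_nonneg_left hv.le hb.le
          _ = g / 8 := by rw [mul_comm]; exact hρ1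
    have hyx : ‖y - x‖ < ρ := by rwa [mem_ball_iff_norm] at hy
    have hxz : ‖x - z m‖ < ρ := by rwa [dist_eq_norm] at hm
    obtain ⟨n1, n2⟩ := hNb _ hyx
    obtain ⟨n3, _⟩ := hNb _ hxz
    have hpy : p y ≤ p x + g / 8 := by
      have e : y = x + (y - x) := by abel
      calc p y = p (x + (y - x)) := by rw [← e]
        _ ≤ p x + p (y - x) := map_add_le_add p _ _
        _ ≤ p x + g / 8 := by linarith
    have hNyz : N (y - z m) ≤ g / 4 := by
      have e : y - z m = (y - x) + (x - z m) := by abel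
      calc N (y - z m) = N ((y - x) + (x - z m)) := by rw [← e]
        _ ≤ N (y - x) + N (x - z m) := map_add_le_add N _ _
        _ ≤ g / 4 := by linarith
    have hik0 := hk0 i.1
    have hinv : 1 / ((i.1 : ℝ) + 1) ≤ g / 16 := by
      rw [div_le_iff₀ hik0]
      rw [div_lt_iff₀ hg0] at hk1
      nlinarith
    have hDy : D i.1 y ≤ g / 4 + g / 16 := by
      have e := hD5 i.1 y (Pi.single ⟨m, hmi⟩ 1)
      have e1 : ∑ j : Fin i.1, (Pi.single (⟨m, hmi⟩ : Fin i.1) (1 : ℝ) : Fin i.1 → ℝ) j • z j = z m := by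
        rw [Finset.sum_eq_single (⟨m, hmi⟩ : Fin i.1)]
        · simp
        · intro b _ hb
          rw [Pi.single_eq_of_ne hb, zero_smul]
        · intro h
          exact absurd (Finset.mem_univ _) h
      have e2 : ∑ j : Fin i.1, (Pi.single (⟨m, hmi⟩ : Fin i.1) (1 : ℝ) : Fin i.1 → ℝ) j ^ 2 = 1 := by
        rw [Finset.sum_eq_single (⟨m, hmi⟩ : Fin i.1)]
        · simp
        · intro b _ hb
          rw [Pi.single_eq_of_ne hb]
          norm_num
        · intro h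
          exact absurd (Finset.mem_univ _) h
      rw [e1, e2, mul_one] at e
      linarith
    apply hfz
    have hpy0 := apply_nonneg p y
    have hw1 := hwk i.1
    have hw2 := hw0 i.1
    have hD0 := hD4 i.1 y
    have q1 : w i.1 * p y ≤ g / 16 * 2 := mul_le_mul (hw1.trans hinv) (by linarith) hpy0 (by positivity)
    have q2 : τ * D i.1 y ≤ 1 / 8 * (g / 4 + g / 16) := mul_le_mul hτ8 hDy hD0 (by norm_num)
    nlinarith
  obtain ⟨q, hq1, hq2⟩ := gauge_lemma f hfconv hfeven (fun i => (hfs i).continuous) hfnn p hp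
    (1 - δ / 2) (by linarith) h1 (fun x hx => (hB x hx).le) h3
  refine ⟨q, hq1, fun x => ⟨(hq2 x).1, (hq2 x).2.trans ?_⟩⟩
  apply mul_le_mul_of_nonneg_right _ (apply_nonneg p x)
  have : 0 < 1 - δ / 2 := by linarith
  rw [inv_le_iff_one_le_mul₀ this]
  nlinarith

theorem appr_separable {X : Type*} [NormedAddCommGroup X] [NormedSpace ℝ X] [CompleteSpace X]
    [TopologicalSpace.SeparableSpace X]
    (N : Seminorm ℝ X) (hN : EqN N) (hS : SmN N) : Appr X := by
  intro p hp δ hδ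
  obtain ⟨q, hq1, hq2⟩ := small_12824 N hN hS p hp (min δ 1) (lt_min hδ one_pos) (min_le_right _ _)
  refine ⟨q, hq1, fun x => ⟨(hq2 x).1, (hq2 x).2.trans ?_⟩⟩
  apply mul_le_mul_of_nonneg_right _ (apply_nonneg p x)
  have := min_le_left δ 1
  linarith

end Pool.Agent.Helper912.SA
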