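import Pool.Agent.Helper912.SA.Defs

set_option autoImplicit false

namespace Pool.Agent.Helper912.SA

open Set Filter Topology Cardinal



theorem sq_contDiff_one {X : Type*} [NormedAddCommGroup X] [NormedSpace ℝ X]
    (N : Seminorm ℝ X) (hN : EqN N) (hS : SmN N) : ContDiff ℝ 1 (fun x => N x ^ 2) := by
  obtain ⟨c, hc, C, hC⟩ := hN
  set D : ℝ := |C| with hD
  have hD0 : 0 ≤ D := abs_nonneg C
  have hle : ∀ x, N x ≤ D * ‖x‖ := fun x =>
    (hC x).2.trans (mul_le_mul_of_nonneg_right (le_abs_self C) (norm_nonneg x))
  have hlip : LipschitzWith (Real.toNNReal D) (fun x => N x) := by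
    refine LipschitzWith.of_dist_le_mul fun x y => ?_
    rw [Real.coe_toNNReal D hD0, Real.dist_eq, dist_eq_norm]
    exact (abs_sub_map_le_sub N x y).trans (hle (x - y))
  have h0 : HasFDerivAt (fun x => N x ^ 2) (0 : X →L[ℝ] ℝ) 0 := by
    have hb : (fun x => N x ^ 2) =O[𝓝 (0 : X)] fun x => ‖x - 0‖ ^ 2 := by
      refine Asymptotics.IsBigO.of_bound (D ^ 2) (Filter.Eventually.of_forall fun x => ?_)
      rw [sub_zero, Real.norm_eq_abs, Real.norm_eq_abs, abs_of_nonneg (by positivity),
        abs_of_nonneg (by positivity), ← mul_pow]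
      exact pow_le_pow_left₀ (apply_nonneg N x) (hle x) 2
    exact hb.hasFDerivAt (by norm_num)
  have h1 : ∀ x : X, x ≠ 0 → HasFDerivAt (fun x => N x ^ 2)
      ((2 * N x) • fderiv ℝ (fun x => N x) x) x := by
    intro x hx
    have hd : DifferentiableAt ℝ (fun x => N x) x :=
      (hS x hx).differentiableAt (by simp)
    have := hd.hasFDerivAt.pow 2
    refine this.congr_fderiv ?_
    ext y
    simp
  have h2 : ∀ x : X, ContDiffAt ℝ 1 (fun x => N x ^ 2) x ∨ x = 0 := by
    intro x
    by_cases hx : x = 0
    · right; exact hx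
    · left
      exact (((hS x hx).of_le (by exact_mod_cast le_top)).pow 2)
  rw [contDiff_one_iff_fderiv]
  refine ⟨fun x => ?_, ?_⟩
  · by_cases hx : x = 0
    · subst hx; exact h0.differentiableAt
    · exact (h1 x hx).differentiableAt
  · rw [continuous_iff_continuousAt]
    intro x
    by_cases hx : x = 0
    · subst hx
      have e0 : fderiv ℝ (fun x => N x ^ 2) 0 = 0 := h0.fderiv
      rw [ContinuousAt, e0, tendsto_zero_iff_norm_tendsto_zero]
      have hb : ∀ x : X, ‖fderiv ℝ (fun x => N x ^ 2) x‖ ≤ 2 * (D * ‖x‖) * D := by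
        intro x
        by_cases hx : x = 0
        · subst hx
          rw [e0]
          simp
        · rw [(h1 x hx).fderiv, norm_smul, Real.norm_eq_abs,
            abs_of_nonneg (mul_nonneg zero_le_two (apply_nonneg N x))]
          have hn : ‖fderiv ℝ (fun x => N x) x‖ ≤ D := by
            have := norm_fderiv_le_of_lipschitz ℝ hlip (x₀ := x)
            rwa [Real.coe_toNNReal D hD0] at this
          have := hle x
          have h3 := apply_nonneg N x
          exact mul_le_mul (by linarith) hn (norm_nonneg _) (by positivity)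
      refine squeeze_zero (fun x => norm_nonneg _) hb ?_
      have : Continuous (fun x : X => 2 * (D * ‖x‖) * D) := by fun_prop
      have h4 := this.tendsto 0
      simpa using h4
    · rcases h2 x with h | h
      · exact (h.fderiv_right (m := 0) (by norm_num)).continuousAt
      · exact absurd h hx

end Pool.Agent.Helper912.SA
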